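import Pool.Agent.Helper48.ET.WSetup

/-!
# Weighted double solids are uniruled

`uni_weighted`: the function field of `r² = B(x, y, z)`, `B` of weighted degree at most twice the
sum of the weights, characteristic different from two.
-/

set_option autoImplicit false

namespace Pool.Agent.Helper48.ET

open IntermediateField Pool.Agent.Helper40.SD Pool.Agent.Helper75.QC

theorem uni_weighted {Ω K : Type} [Field Ω] [IsAlgClosed Ω] [Field K] [Algebra Ω K]
    (h2 : (2 : Ω) ≠ 0) (w : Fin 3 → ℕ) (hw : 0 < ∑ i, w i) (B : MvPolynomial (Fin 3) Ω)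
    (hB : ∀ s ∈ B.support, ∑ i, w i * s i ≤ 2 * ∑ i, w i) (x : Fin 3 → K)
    (r : K) (hr : r ^ 2 = MvPolynomial.aeval x B) (hgen : adjoin Ω (Set.range x ∪ {r}) = ⊤) :
    Uniruled Ω K 3 := by
  refine poly_setup (Polynomial.X ^ 2) (by simp) B x r (by simpa using hr) hgen
    (2 * ∑ i, w i) ?_
  intro E _ _ M _ P hP
  have h2E : (2 : E) ≠ 0 := by
    intro h
    apply h2
    apply (algebraMap Ω E).injective
    rw [map_ofNat, map_zero, h]
  set B' := MvPolynomial.map (algebraMap Ω M) B with hB'
  have hev : MvPolynomial.eval P B' = MvPolynomial.aeval P B := by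
    rw [hB', MvPolynomial.eval_map, MvPolynomial.aeval_def]
  obtain ⟨c, q, h, hcw, hc0, hcn, hh, heq⟩ := exists_curve w hw B'
    (fun s hs => hB s (MvPolynomial.support_map_subset _ _ hs)) P (by rw [hev]; exact hP)
  refine ⟨c, fun i => (hcw i).trans (Nat.mul_le_mul_left _
    (Finset.single_le_sum (fun _ _ => Nat.zero_le _) (Finset.mem_univ i))), hc0, hcn,
    fun t r hr => ?_⟩
  rw [hB', aeval_map_curve] at heq
  have h3 := congrArg (Polynomial.aeval t) heq
  rw [aeval_curve, map_mul, map_pow] at h3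
  have hr' : r ^ 2 = Polynomial.aeval t q ^ 2 * Polynomial.aeval t h := by
    have h5 : Polynomial.aeval r (Polynomial.X ^ 2 : Polynomial Ω) = r ^ 2 := by simp
    rw [← h5, hr, h3]
  have hq : ∀ F : IntermediateField Ω E, M ≤ F → t ∈ F → Polynomial.aeval t q ∈ F := by
    intro F hF htF
    rw [Polynomial.aeval_eq_sum_range]
    refine sum_mem fun j _ => ?_
    rw [Algebra.smul_def]
    exact F.mul_mem (hF (q.coeff j).2) (pow_mem htF j)
  by_cases hQ : Polynomial.aeval t q = 0
  · rw [hQ] at hr'
    have h5 : r = 0 := by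
      apply eq_zero_of_pow_eq_zero (n := 2)
      rw [hr']
      ring
    exact ⟨t, fun F hF hθ => ⟨hθ, by rw [h5]; exact F.zero_mem⟩⟩
  · set Q : E := Polynomial.aeval t q with hQd
    have hht : Polynomial.aeval t h =
        ((h.coeff 0 : M) : E) + ((h.coeff 1 : M) : E) * t + ((h.coeff 2 : M) : E) * t ^ 2 := by
      rw [Polynomial.aeval_eq_sum_range' (n := 3) (by omega), Finset.sum_range_succ,
        Finset.sum_range_succ, Finset.sum_range_one]
      simp only [Algebra.smul_def, IntermediateField.algebraMap_apply]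
      ring
    obtain ⟨θ, hθ⟩ := conic_param M h2E (h.coeff 0) (h.coeff 1) (h.coeff 2) t (r / Q) (by
      rw [div_pow, hr', hht]
      field_simp)
    refine ⟨θ, fun F hF hθF => ?_⟩
    obtain ⟨e1, e2⟩ := hθ F hF hθF
    refine ⟨e1, ?_⟩
    have h5 : r = r / Q * Q := by field_simp
    rw [h5]
    exact F.mul_mem e2 (hq F hF e1)

end Pool.Agent.Helper48.ET
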