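import Pool.Agent.Helper15.QM.Core
import Pool.Agent.Helper35.TD.Comm

/-! Project ET (MP_8abef2_ag). The criterion of `Helper35/TD/Tame.lean` for a covering `w ^ n ∈ M₀` of
an arbitrary surface: `M₀` is the field generated over `Ω` by a finite set `S`. -/

set_option autoImplicit false

namespace Pool.Agent.Helper48.ET

open IntermediateField Pool.Agent.Helper75.QC Pool.Agent.Helper35.TD Pool.Agent.Helper15.QM

theorem adjoin_union {Ω K : Type} [Field Ω] [Field K] [Algebra Ω K] (S R : Set K) :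
    adjoin Ω ((adjoin Ω S : Set K) ∪ R) = adjoin Ω (S ∪ R) := by
  apply le_antisymm
  · rw [adjoin_le_iff]
    rintro s (h | h)
    · exact adjoin.mono _ _ _ Set.subset_union_left h
    · exact subset_adjoin _ _ (Or.inr h)
  · rw [adjoin_le_iff]
    rintro s (h | h)
    · exact subset_adjoin _ _ (Or.inl (subset_adjoin _ _ h))
    · exact subset_adjoin _ _ (Or.inr h)

theorem adjoin_image_union {Ω K N : Type} [Field Ω] [Field K] [Algebra Ω K] [Field N] [Algebra Ω N]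
    (g : K →ₐ[Ω] N) (S : Set K) (R : Set N) :
    adjoin Ω (g '' (adjoin Ω S : Set K) ∪ R) = adjoin Ω (g '' S ∪ R) := by
  apply le_antisymm
  · rw [adjoin_le_iff]
    rintro r (⟨k, hk, rfl⟩ | h)
    · have h2 : adjoin Ω S ≤ (adjoin Ω (g '' S ∪ R)).comap g := by
        rw [adjoin_le_iff]
        intro s hs
        exact subset_adjoin _ _ (Or.inl ⟨s, hs, rfl⟩)
      exact h2 hk
    · exact subset_adjoin _ _ (Or.inr h)
  · rw [adjoin_le_iff]
    rintro r (⟨k, hk, rfl⟩ | h)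
    · exact subset_adjoin _ _ (Or.inl ⟨k, subset_adjoin _ _ hk, rfl⟩)
    · exact subset_adjoin _ _ (Or.inr h)

/-- an automorphism which fixes the generators fixes the field -/
theorem fix_adjoin {Ω K : Type} [Field Ω] [Field K] [Algebra Ω K] (S : Set K) (σ : K →ₐ[Ω] K)
    (h : ∀ s ∈ S, σ s = s) : ∀ k ∈ adjoin Ω S, σ k = k := by
  intro k hk
  induction hk using adjoin_induction with
  | mem x hx => exact h x hx
  | algebraMap x => exact σ.commutes x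
  | add x y _ _ hx hy => rw [map_add, hx, hy]
  | inv x _ hx => rw [map_inv₀, hx]
  | mul x y _ _ hx hy => rw [map_mul, hx, hy]

/-- **The criterion.** -/
theorem tame_gen {F Ω L : Type} [Field F] [Field Ω] [Algebra F Ω] [IsAlgClosed Ω] [Field L]
    [CharZero L] [IsAlgClosed L] (T : GaloisTheory F Ω L) (α β : ℕ) {n : ℕ} (hn : 0 < n)
    (hn' : (n : Ω) ≠ 0) (hαβ : (α.gcd β).Coprime n) {K : Type} [Field K] [Algebra Ω K]
    (hfin : (⊤ : IntermediateField Ω K).FG) (x y : K) (hxy : ∀ k : K, k ∈ Acl Ω {x, y})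
    (S : Set K) (w : K) (hK : adjoin Ω (S ∪ {w}) = ⊤) (hw0 : w ≠ 0) (hw : w ^ n ∈ adjoin Ω S)
    (hdeg : Module.finrank (adjoin Ω S) K = n)
    (huni : ∀ (N : Type) [Field N] [Algebra Ω N] (g : K →ₐ[Ω] N) (v s : N),
      Transcendental g.fieldRange v → v ^ α * (1 - v) ^ β = s ^ n * g w ^ n →
      Uniruled Ω (adjoin Ω (g '' S ∪ {v, s}) : IntermediateField Ω N) 3)
    (hexc : ∀ (ζ : Ω) (σ : K →ₐ[Ω] K), IsPrimitiveRoot ζ n → (∀ s ∈ S, σ s = s) →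
      σ w = algebraMap Ω K ζ * w → ∀ (ξ : L) (t : T.H 2 K), ξ ^ n = 1 →
      (ξ ^ α = 1 ∨ ξ ^ β = 1 ∨ ξ ^ (α + β) = 1) → T.map 2 σ t = ξ • t → t = 0)
    (U : Subgroup (Ω ≃ₐ[F] Ω)) (hU : IsOpen (U : Set (Ω ≃ₐ[F] Ω)))
    (γ : (Ω ≃ₐ[F] Ω) → (K →+* K)) (hγ : ∀ τ ∈ U, IsOver (τ : Ω ≃+* Ω) (γ τ))
    (hfix : ∀ τ ∈ U, ∀ s ∈ S ∪ {w}, γ τ s = s) (t : T.H 2 K)
    (ht : ∀ τ ∈ U, T.act 2 (γ τ) t = ((T.cyc τ)⁻¹ : Lˣ) • t) : t = 0 := by
  classical
  by_contra h0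
  have : FiniteDimensional L (T.H 2 K) := T.fin 2 K hfin
  obtain ⟨ζ, σ, hζ, hσ, hσw, -, key⟩ := kummer_gen T.toBaseTheory α β hn hn' hαβ (adjoin Ω S) w
    (by rw [adjoin_union, hK]) hw0 hw hdeg (fun N _ _ g v s hv hs => by
      rw [adjoin_image_union]
      exact huni N g v s hv hs) (fun ζ σ hζ hσ hσw ξ t h1 h2 h3 =>
        hexc ζ σ hζ (fun s hs => hσ s (subset_adjoin _ _ hs)) hσw ξ t h1 h2 h3)
  have hσS : ∀ s ∈ S, σ s = s := fun s hs => hσ s (subset_adjoin _ _ hs)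
  have hζF : IsIntegral F ζ := by
    refine ⟨Polynomial.X ^ n - Polynomial.C 1, Polynomial.monic_X_pow_sub_C _ hn.ne', ?_⟩
    rw [Polynomial.eval₂_sub, Polynomial.eval₂_pow, Polynomial.eval₂_X, Polynomial.eval₂_C,
      hζ.pow_eq_one, map_one, sub_self]
  obtain ⟨V, hVU, hV, hVζ⟩ := exists_open U hU ζ hζF
  -- a common eigenvector
  have hcomm : ∀ (τ : V) (r : T.H 2 K),
      T.act 2 (γ τ) (T.map 2 σ r) = T.map 2 σ (T.act 2 (γ τ) r) := by
    intro τ r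
    have hτ := hVU τ.2
    refine T.act_comm 2 (S ∪ {w}) hK (τ : Ω ≃+* Ω) (γ τ) (hγ τ hτ) σ ?_ r
    intro s hs
    have h1 := hfix τ hτ s hs
    rw [h1]
    rcases hs with hs | rfl
    · rw [hσS s hs, h1]
    · rw [hσw, map_mul, hγ τ hτ, h1]
      congr 2
      exact hVζ τ τ.2
  obtain ⟨s, ξ, hs0, hs, hξs⟩ := exists_eigen (fun τ : V => T.act 2 (γ τ))
    (fun τ : V => (((T.cyc τ)⁻¹ : Lˣ) : L)) (T.map 2 σ) hcomm t
    (fun τ => ht τ (hVU τ.2)) h0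
  obtain ⟨C, N, iC, jC, iN, jN, v, a, b, z, hfinC, hCv, hbv, ⟨R, hR, hgal⟩, hz, hcup⟩ :=
    key ξ s hξs hs0
  choose γ' hγ' using fun τ : Ω ≃ₐ[F] Ω => hgal (τ : Ω ≃+* Ω)
  refine hs0 (T.eq_zero_of_cup a b x y v V γ γ' hfin hfinC hxy hCv hbv hV ?_ ?_ s
    (fun τ hτ => hs ⟨τ, hτ⟩) z hz hcup)
  · exact isForm_of_gens (fun τ hτ => hγ τ (hVU hτ)) (S ∪ {w}) hK
      fun τ hτ k hk => hfix τ (hVU hτ) k hk
  · exact isForm_of_gens (fun τ _ => (hγ' τ).1) R hR fun τ _ k hk => (hγ' τ).2 k hk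

end Pool.Agent.Helper48.ET
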