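import Pool.Agent.Helper75.QC.Dep
import Pool.Agent.Helper48.ET.Gen

/-! Project ET. The degree of the tower `y ^ 2 = h(x, w ^ n)` over the field generated by `x`, `y` and
`w ^ n`. -/

set_option autoImplicit false

namespace Pool.Agent.Helper48.ET

open IntermediateField Polynomial Pool.Agent.Helper75.QC

/-- the powers `1, w, …, w ^ (n - 1)` of a transcendental element are independent over the field
generated by `w ^ n` -/
theorem pow_indep {k E : Type} [Field k] [Field E] [Algebra k E] {w : E} (hw : Transcendental k w)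
    {n : ℕ} (hn : 0 < n) (c : ℕ → E) (hc : ∀ i, c i ∈ k⟮w ^ n⟯)
    (h : ∑ i ∈ Finset.range n, c i * w ^ i = 0) : ∀ i < n, c i = 0 := by
  classical
  have hwn : Transcendental k (w ^ n) := hw.pow hn
  have hrs : ∀ i, ∃ r s : k[X], s ≠ 0 ∧ c i * aeval (w ^ n) s = aeval (w ^ n) r := by
    intro i
    obtain ⟨r, s, h1⟩ := (mem_adjoin_simple_iff k _).1 (hc i)
    by_cases hs : s = 0
    · refine ⟨0, 1, one_ne_zero, ?_⟩
      rw [h1, hs, map_zero, div_zero, zero_mul]
    · refine ⟨r, s, hs, ?_⟩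
      have h2 : aeval (w ^ n) s ≠ 0 := fun h => hs (transcendental_iff.1 hwn s h)
      rw [h1, div_mul_cancel₀ _ h2]
  choose r s hs hrs using hrs
  obtain ⟨q, hq⟩ : ∃ q : ℕ → k[X], q = fun i => r i * ∏ j ∈ (Finset.range n).erase i, s j := ⟨_, rfl⟩
  have hq1 : ∀ i ∈ Finset.range n,
      aeval (w ^ n) (q i) = c i * aeval (w ^ n) (∏ j ∈ Finset.range n, s j) := by
    intro i hi
    rw [hq]
    change aeval (w ^ n) (r i * ∏ j ∈ (Finset.range n).erase i, s j) = _
    rw [← Finset.mul_prod_erase _ _ hi, map_mul, map_mul, ← hrs i]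
    ring
  have h1 : aeval w (∑ i ∈ Finset.range n, expand k n (q i) * X ^ i) = 0 := by
    rw [map_sum]
    have h2 : ∀ i ∈ Finset.range n, aeval w (expand k n (q i) * X ^ i) =
        aeval (w ^ n) (∏ j ∈ Finset.range n, s j) * (c i * w ^ i) := by
      intro i hi
      rw [map_mul, expand_aeval, hq1 i hi, map_pow, aeval_X]
      ring
    rw [Finset.sum_congr rfl h2, ← Finset.mul_sum, h, mul_zero]
  have h2 := transcendental_iff.1 hw _ h1
  intro i hi
  have h3 : q i = 0 := by
    ext m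
    have h4 := congrArg (fun P => coeff P (n * m + i)) h2
    simp only [finsetSum_coeff, coeff_zero] at h4
    rw [Finset.sum_eq_single i] at h4
    · rw [coeff_mul_X_pow, mul_comm n m, coeff_expand_mul hn] at h4
      rw [h4, coeff_zero]
    · intro j hj hji
      rw [coeff_mul_X_pow']
      split_ifs with h5
      · rw [coeff_expand hn, if_neg]
        intro h6
        apply hji
        have h7 : (n * m + i - j + j) % n = (0 + j) % n := by
          rw [Nat.add_mod, Nat.mod_eq_zero_of_dvd h6, Nat.zero_add, Nat.mod_mod, Nat.zero_add]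
        rw [Nat.sub_add_cancel h5, Nat.mul_add_mod, Nat.mod_eq_of_lt hi, Nat.zero_add,
          Nat.mod_eq_of_lt (Finset.mem_range.1 hj)] at h7
        exact h7.symm
      · rfl
    · intro h5
      exact absurd (Finset.mem_range.2 hi) h5
  have h4 := hq1 i (Finset.mem_range.2 hi)
  rw [h3, map_zero] at h4
  have h5 : aeval (w ^ n) (∏ j ∈ Finset.range n, s j) ≠ 0 := by
    intro h6
    have h7 := transcendental_iff.1 hwn _ h6
    rw [Finset.prod_eq_zero_iff] at h7
    obtain ⟨j, -, hj⟩ := h7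
    exact hs j hj
  exact (mul_eq_zero.1 h4.symm).resolve_right h5

/-- the field generated by a square root -/
theorem quad_mem {Ω K : Type} [Field Ω] [Field K] [Algebra Ω K] (A : IntermediateField Ω K) (y : K)
    (hy : y ^ 2 ∈ A) (hyA : y ∉ A) : ∀ k ∈ adjoin Ω ((A : Set K) ∪ {y}),
      ∃ a ∈ A, ∃ b ∈ A, k = a + b * y := by
  intro k hk
  induction hk using adjoin_induction with
  | mem x hx =>
    rcases hx with hx | rfl
    · exact ⟨x, hx, 0, zero_mem _, by ring⟩
    · exact ⟨0, zero_mem _, 1, one_mem _, by ring⟩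
  | algebraMap x => exact ⟨_, A.algebraMap_mem x, 0, zero_mem _, by ring⟩
  | add k l _ _ hk hl =>
    obtain ⟨a, ha, b, hb, rfl⟩ := hk
    obtain ⟨c, hc, d, hd, rfl⟩ := hl
    exact ⟨a + c, add_mem ha hc, b + d, add_mem hb hd, by ring⟩
  | mul k l _ _ hk hl =>
    obtain ⟨a, ha, b, hb, rfl⟩ := hk
    obtain ⟨c, hc, d, hd, rfl⟩ := hl
    exact ⟨a * c + b * d * y ^ 2, add_mem (mul_mem ha hc) (mul_mem (mul_mem hb hd) hy),
      a * d + b * c, add_mem (mul_mem ha hd) (mul_mem hb hc), by ring⟩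
  | inv k _ hk =>
    obtain ⟨a, ha, b, hb, rfl⟩ := hk
    by_cases h0 : a + b * y = 0
    · exact ⟨0, zero_mem _, 0, zero_mem _, by rw [h0, inv_zero]; ring⟩
    have h1 : a - b * y ≠ 0 := by
      intro h1
      by_cases hb0 : b = 0
      · apply h0
        rw [hb0, zero_mul, sub_zero] at h1
        rw [h1, hb0]
        ring
      · apply hyA
        have h2 : y = a / b := by
          rw [eq_div_iff hb0]
          linear_combination -h1
        rw [h2]
        exact div_mem ha hb
    have h2 : a ^ 2 - b ^ 2 * y ^ 2 ∈ A :=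
      sub_mem (pow_mem ha 2) (mul_mem (pow_mem hb 2) hy)
    have h3 : a ^ 2 - b ^ 2 * y ^ 2 = (a + b * y) * (a - b * y) := by ring
    have h4 : a ^ 2 - b ^ 2 * y ^ 2 ≠ 0 := by
      rw [h3]
      exact mul_ne_zero h0 h1
    refine ⟨a / (a ^ 2 - b ^ 2 * y ^ 2), div_mem ha h2, -b / (a ^ 2 - b ^ 2 * y ^ 2),
      div_mem (neg_mem hb) h2, ?_⟩
    rw [inv_eq_iff_eq_inv]
    have h5 : a / (a ^ 2 - b ^ 2 * y ^ 2) + -b / (a ^ 2 - b ^ 2 * y ^ 2) * y =
        (a - b * y) / (a ^ 2 - b ^ 2 * y ^ 2) := by ring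
    rw [h5, h3, inv_div, mul_div_cancel_right₀ _ h1]

/-- **The degree of the tower.** -/
theorem tower_deg {Ω K : Type} [Field Ω] [Field K] [Algebra Ω K] {n : ℕ} (hn : 0 < n) (x y w : K)
    (hK : adjoin Ω {x, y, w} = ⊤) (hy : y ^ 2 ∈ adjoin Ω {x, w ^ n}) :
    Uniruled Ω K 2 ∨ Module.finrank (adjoin Ω {x, y, w ^ n}) K = n := by
  classical
  obtain ⟨A, hA⟩ : ∃ A : IntermediateField Ω K, A = adjoin Ω {x, w ^ n} := ⟨_, rfl⟩
  obtain ⟨B, hB⟩ : ∃ B : IntermediateField Ω K, B = adjoin Ω {x, w} := ⟨_, rfl⟩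
  have hxA : x ∈ A := by rw [hA]; exact subset_adjoin _ _ (by simp)
  have hwA : w ^ n ∈ A := by rw [hA]; exact subset_adjoin _ _ (by simp)
  have hxB : x ∈ B := by rw [hB]; exact subset_adjoin _ _ (by simp)
  have hwB : w ∈ B := by rw [hB]; exact subset_adjoin _ _ (by simp)
  have hAB : A ≤ B := by
    rw [hA, adjoin_le_iff]
    rintro s (rfl | rfl)
    · exact hxB
    · exact pow_mem hwB n
  rw [← hA] at hy
  -- `y` is in the field generated by `x` and `w`
  by_cases hyB : y ∈ B
  · left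
    refine ⟨K, inferInstance, inferInstance, AlgHom.id Ω K, {x}, w, by simp, fun k => ?_⟩
    have h1 : B ≤ adjoin Ω (Acl Ω (({x} : Finset K) : Set K) ∪ {w}) := by
      rw [hB, adjoin_le_iff]
      rintro s (rfl | rfl)
      · refine subset_adjoin _ _ (Or.inl ?_)
        rw [← coe_AF]
        exact subset_AF _ (by simp)
      · exact subset_adjoin _ _ (Or.inr rfl)
    have h2 : adjoin Ω {x, y, w} ≤ B := by
      rw [adjoin_le_iff]
      rintro s (rfl | rfl | rfl)
      · exact hxB
      · exact hyB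
      · exact hwB
    apply h1
    apply h2
    rw [hK]
    exact mem_top
  -- `w` is algebraic over the field generated by `x`
  by_cases hw : Transcendental (adjoin Ω {x}) w
  swap
  · left
    have hw' : w ∈ AF Ω {x} := by
      rw [mem_AF]
      by_contra h
      exact hw h
    have hx' : x ∈ AF Ω {x} := subset_AF _ (by simp)
    have h1 : B ≤ AF Ω {x} := by
      rw [hB, adjoin_le_iff]
      rintro s (rfl | rfl)
      · exact hx'
      · exact hw'
    have hy' : y ∈ AF Ω {x} := AF_root two_pos (h1 (hAB hy))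
    refine ⟨K, inferInstance, inferInstance, AlgHom.id Ω K, {x}, 0, by simp, fun k => ?_⟩
    have h2 : adjoin Ω {x, y, w} ≤ AF Ω {x} := by
      rw [adjoin_le_iff]
      rintro s (rfl | rfl | rfl)
      · exact hx'
      · exact hy'
      · exact hw'
    refine subset_adjoin _ _ (Or.inl ?_)
    rw [← coe_AF, Finset.coe_singleton]
    apply h2
    rw [hK]
    exact mem_top
  right
  have hyA : y ∉ A := fun h => hyB (hAB h)
  obtain ⟨A', hA'⟩ : ∃ A' : IntermediateField Ω K, A' = adjoin Ω {x, y, w ^ n} := ⟨_, rfl⟩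
  rw [← hA']
  have hwA' : w ^ n ∈ A' := by rw [hA']; exact subset_adjoin _ _ (by simp)
  have hdec : ∀ k ∈ A', ∃ a ∈ A, ∃ b ∈ A, k = a + b * y := by
    intro k hk
    refine quad_mem A y hy hyA k ?_
    have h1 : A' ≤ adjoin Ω ((A : Set K) ∪ {y}) := by
      rw [hA', adjoin_le_iff]
      rintro s (rfl | rfl | rfl)
      · exact subset_adjoin _ _ (Or.inl hxA)
      · exact subset_adjoin _ _ (Or.inr rfl)
      · exact subset_adjoin _ _ (Or.inl hwA)
    exact h1 hk
  -- the elements of `A` in the form needed for `pow_indep`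
  have hAk : ∀ a ∈ A, a ∈ (adjoin Ω {x})⟮w ^ n⟯ := by
    intro a ha
    have h1 : A = ((adjoin Ω {x})⟮w ^ n⟯).restrictScalars Ω := by
      rw [hA, adjoin_adjoin_left]
      rfl
    rw [h1] at ha
    exact ha
  -- the degree
  have hint : IsIntegral A' w := IsIntegral.of_pow hn
    (isIntegral_algebraMap (x := (⟨w ^ n, hwA'⟩ : A')))
  have htop : A'⟮w⟯ = ⊤ := by
    apply IntermediateField.restrictScalars_injective Ω
    rw [restrictScalars_top, eq_top_iff, ← hK, adjoin_le_iff]
    have h1 : ∀ s ∈ A', s ∈ A'⟮w⟯ := fun s hs => (A'⟮w⟯).algebraMap_mem ⟨s, hs⟩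
    rintro s (rfl | rfl | rfl)
    · exact h1 s (by rw [hA']; exact subset_adjoin _ _ (by simp))
    · exact h1 s (by rw [hA']; exact subset_adjoin _ _ (by simp))
    · exact mem_adjoin_simple_self A' s
  have hd : (minpoly A' w).natDegree = Module.finrank A' K := by
    rw [← adjoin.finrank hint, htop, finrank_top']
  rw [← hd]
  have hle : (minpoly A' w).natDegree ≤ n := by
    have h2 : minpoly A' w ∣ X ^ n - C (⟨w ^ n, hwA'⟩ : A') := by
      refine minpoly.dvd _ _ ?_
      rw [map_sub, map_pow, aeval_X, aeval_C]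
      exact sub_self _
    have h3 := natDegree_le_of_dvd h2 (X_pow_sub_C_ne_zero hn _)
    rwa [natDegree_X_pow_sub_C] at h3
  by_contra hne
  have hlt : (minpoly A' w).natDegree < n := lt_of_le_of_ne hle hne
  have h0 : aeval w (minpoly A' w) = 0 := minpoly.aeval A' w
  rw [aeval_eq_sum_range' hlt] at h0
  have hco : ∀ i, ∃ a ∈ A, ∃ b ∈ A, ((minpoly A' w).coeff i : K) = a + b * y :=
    fun i => hdec _ ((minpoly A' w).coeff i).2
  choose a ha b hb hab using hco
  have h1 : (∑ i ∈ Finset.range n, a i * w ^ i) + (∑ i ∈ Finset.range n, b i * w ^ i) * y = 0 := by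
    rw [Finset.sum_mul, ← Finset.sum_add_distrib, ← h0]
    refine Finset.sum_congr rfl fun i _ => ?_
    rw [Algebra.smul_def]
    change _ = ((minpoly A' w).coeff i : K) * w ^ i
    rw [hab i]
    ring
  have hBs : ∀ c : ℕ → K, (∀ i, c i ∈ A) → ∑ i ∈ Finset.range n, c i * w ^ i ∈ B := fun c hc =>
    sum_mem fun i _ => mul_mem (hAB (hc i)) (pow_mem hwB i)
  have hb0 : ∑ i ∈ Finset.range n, b i * w ^ i = 0 := by
    by_contra h2
    apply hyB
    have h3 : y = -(∑ i ∈ Finset.range n, a i * w ^ i) / (∑ i ∈ Finset.range n, b i * w ^ i) := by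
      rw [eq_div_iff h2]
      linear_combination h1
    rw [h3]
    exact div_mem (neg_mem (hBs a ha)) (hBs b hb)
  have ha0 : ∑ i ∈ Finset.range n, a i * w ^ i = 0 := by
    rw [hb0, zero_mul, add_zero] at h1
    exact h1
  have ha1 := pow_indep hw hn a (fun i => hAk _ (ha i)) ha0
  have hb1 := pow_indep hw hn b (fun i => hAk _ (hb i)) hb0
  have h2 : ((minpoly A' w).coeff (minpoly A' w).natDegree : K) = 0 := by
    rw [hab, ha1 _ hlt, hb1 _ hlt]
    ring
  rw [coeff_natDegree, (minpoly.monic hint).leadingCoeff] at h2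
  exact one_ne_zero h2

end Pool.Agent.Helper48.ET
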