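import Pool.Agent.Helper48.ET.Gen
import Pool.Agent.Helper75.QC.Tame

/-! Project ET. The criterion of `Helper75/QC/Tame.lean` (Frobenius is semisimple) for a covering
`w ^ n ∈ M₀` of an arbitrary surface, `M₀` the field generated over `Ω` by a set `S`. -/

set_option autoImplicit false

namespace Pool.Agent.Helper48.ET

open IntermediateField Pool.Agent.Helper75.QC Pool.Agent.Helper15.QM

private theorem alg_of_pow48 {Ω K : Type} [Field Ω] [Field K] [Algebra Ω K] (R : IntermediateField Ω K)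
    (S : Set K) (hS : adjoin Ω S = ⊤) (m : ℕ) (hm : 0 < m) (h : ∀ s ∈ S, s ^ m ∈ R) (k : K) :
    IsAlgebraic R k := by
  have h1 : adjoin Ω S ≤ (algebraicClosure R K).restrictScalars Ω := by
    rw [adjoin_le_iff]
    intro s hs
    have h2 : IsAlgebraic R s := by
      refine IsAlgebraic.of_pow hm ?_
      exact isAlgebraic_algebraMap (⟨s ^ m, h s hs⟩ : R)
    exact (mem_algebraicClosure_iff).2 h2
  have h3 : k ∈ (algebraicClosure R K).restrictScalars Ω := by
    apply h1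
    rw [hS]
    exact mem_top
  exact (mem_algebraicClosure_iff).1 h3

private theorem end_pow48 {Ω K : Type} [Field Ω] [Field K] [Algebra Ω K] (φ : K →ₐ[Ω] K) (q : ℕ)
    (x : K) (hx : φ x = x ^ q) (k : ℕ) : (φ ^ k) x = x ^ q ^ k := by
  induction k with
  | zero => simp
  | succ k ih =>
    rw [pow_succ, AlgHom.mul_apply, hx, map_pow, ih, ← pow_mul, pow_succ]

private theorem end_pow48' {Ω K : Type} [Field Ω] [Field K] [Algebra Ω K] (σ : K →ₐ[Ω] K) (c : Ω)
    (x : K) (hx : σ x = algebraMap Ω K c * x) (k : ℕ) :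
    (σ ^ k) x = algebraMap Ω K (c ^ k) * x := by
  induction k with
  | zero => simp
  | succ k ih =>
    rw [pow_succ, AlgHom.mul_apply, hx, map_mul, ih, AlgHom.commutes, pow_succ, map_mul]
    ring

private theorem map_pow48 {Ω L : Type} [Field Ω] [Field L] (T : BaseTheory Ω L) (i : ℕ)
    {K : Type} [Field K] [Algebra Ω K] (φ : K →ₐ[Ω] K) (k : ℕ) :
    T.map i (φ ^ k) = (T.map i φ) ^ k := by
  induction k with
  | zero =>
    rw [pow_zero, pow_zero]
    exact T.map_id i K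
  | succ k ih =>
    rw [pow_succ, pow_succ, ← ih]
    exact T.map_comp i φ (φ ^ k)

private theorem semisimple_of_zero48 {L V : Type} [Field L] [AddCommGroup V] [Module L V]
    (Φ : Module.End L V) (h : ∀ v : V, v = 0) : Φ.IsSemisimple := by
  have h1 : Φ = 0 := by
    ext v
    rw [h v, map_zero, map_zero]
  rw [h1]
  exact Module.End.isSemisimple_zero

/-- **The criterion.** The cyclic cover `w^n ∈ Ω(x, y)` and the curve `u^n = v^α (1 - v)^β`: if the
threefolds `v^α (1 - v)^β = s^n w^n` are uniruled, Frobenius is semisimple. -/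
theorem frob_gen {p : ℕ} [Fact p.Prime] {Ω L : Type} [Field Ω] [CharP Ω p] [IsAlgClosed Ω]
    [Field L] [CharZero L] [IsAlgClosed L] (T : Theory p Ω L) (α β : ℕ) {n e : ℕ} (hn : 0 < n)
    (hn' : (n : Ω) ≠ 0) (hαβ : (α.gcd β).Coprime n) {K : Type} [Field K] [Algebra Ω K]
    (hfin : (⊤ : IntermediateField Ω K).FG) (x y : K) (hxy : ∀ k : K, k ∈ Acl Ω {x, y})
    (S : Set K) (w : K) (hK : adjoin Ω (S ∪ {w}) = ⊤) (hw0 : w ≠ 0) (hw : w ^ n ∈ adjoin Ω S)
    (hdeg : Module.finrank (adjoin Ω S) K = n)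
    (huni : ∀ (N : Type) [Field N] [Algebra Ω N] (g : K →ₐ[Ω] N) (v s : N),
      Transcendental g.fieldRange v → v ^ α * (1 - v) ^ β = s ^ n * g w ^ n →
      Uniruled Ω (adjoin Ω (g '' S ∪ {v, s}) : IntermediateField Ω N) 3)
    (hexc : ∀ (ζ : Ω) (σ : K →ₐ[Ω] K), IsPrimitiveRoot ζ n → (∀ s ∈ S, σ s = s) →
      σ w = algebraMap Ω K ζ * w → ∀ (ξ : L) (t : T.H 2 K), ξ ^ n = 1 →
      (ξ ^ α = 1 ∨ ξ ^ β = 1 ∨ ξ ^ (α + β) = 1) → T.map 2 σ t = ξ • t → t = 0)
    (φ : K →ₐ[Ω] K) (hφ : ∀ s ∈ S ∪ {w}, φ s = s ^ p ^ e) :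
    Module.End.IsSemisimple (T.map 2 φ) := by
  classical
  have : NeZero (n : Ω) := ⟨hn'⟩
  obtain ⟨ζ, hζ⟩ : ∃ ζ : Ω, IsPrimitiveRoot ζ n :=
    HasEnoughRootsOfUnity.exists_primitiveRoot Ω n
  have hK' : adjoin Ω ((adjoin Ω S : Set K) ∪ {w}) = ⊤ := by rw [adjoin_union, hK]
  obtain ⟨σ, hσ⟩ := Gen.kummer_sigma hn hn' hζ.pow_eq_one (adjoin Ω S) w hK' hw hdeg
  have hσS : ∀ s ∈ S, σ s = s := fun s hs => hσ.1 s (subset_adjoin _ _ hs)
  have hσn : σ ^ n = 1 := sigma_order hζ.pow_eq_one (adjoin Ω S) w hK' σ hσ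
  have : FiniteDimensional L (T.H 2 K) := T.fin 2 K hfin
  set k := n.totient with hk
  have hk0 : 0 < k := Nat.totient_pos.2 hn
  have hcop : Nat.Coprime p n := by
    rw [Nat.Prime.coprime_iff_not_dvd Fact.out]
    intro h
    exact hn' ((CharP.cast_eq_zero_iff Ω p n).2 h)
  have hpk : p ^ (e * k) ≡ 1 [MOD n] := by
    have h1 : p ^ k ≡ 1 [MOD n] := Nat.ModEq.pow_totient hcop
    have h2 := h1.pow e
    rwa [one_pow, ← pow_mul, mul_comm] at h2
  have hζp : ζ ^ p ^ (e * k) = ζ := by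
    have h1 : n ∣ p ^ (e * k) - 1 :=
      (Nat.modEq_iff_dvd' (Nat.one_le_iff_ne_zero.2 (pow_ne_zero _ (Fact.out : p.Prime).ne_zero))).1
        hpk.symm
    obtain ⟨r, hr⟩ := h1
    have h2 : p ^ (e * k) = n * r + 1 := by
      have := Nat.one_le_iff_ne_zero.2 (pow_ne_zero (e * k) (Fact.out : p.Prime).ne_zero)
      omega
    rw [h2, pow_succ, pow_mul, hζ.pow_eq_one, one_pow, one_mul]
  have hpe : 0 < p ^ (e * k) := pow_pos (Fact.out : p.Prime).pos _
  set φk : K →ₐ[Ω] K := φ ^ k with hφk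
  have hφS : ∀ s ∈ S ∪ {w}, φk s = s ^ p ^ (e * k) := by
    intro s hs
    rw [hφk, end_pow48 φ _ s (hφ s hs) k, pow_mul]
  have hcomm : σ.comp φk = φk.comp σ := by
    refine hom_ext (S ∪ {w}) hK _ _ ?_
    intro s hs
    have h1 := hφS s hs
    rw [AlgHom.comp_apply, AlgHom.comp_apply, h1, map_pow]
    rcases hs with hs | rfl
    · rw [hσS s hs, h1]
    · rw [hσ.2, map_mul, h1, AlgHom.commutes, mul_pow, ← map_pow, hζp]
  set A : Module.End L (T.H 2 K) := T.map 2 σ with hA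
  set Φ : Module.End L (T.H 2 K) := T.map 2 φk with hΦ
  have hAn : A ^ n = 1 := by
    rw [hA, ← map_pow48 T.toBaseTheory, hσn]
    exact T.map_id 2 K
  have hAΦ : Commute A Φ := by
    show A * Φ = Φ * A
    have h1 := T.map_comp 2 φk σ
    have h2 := T.map_comp 2 σ φk
    rw [hcomm, h2] at h1
    exact h1.symm
  have hinj : Function.Injective (T.map 2 φ) := by
    refine T.inj 2 φ fun a => alg_of_pow48 φ.fieldRange (S ∪ {w}) hK (p ^ e)
      (pow_pos (Fact.out : p.Prime).pos _) (fun s hs => ⟨s, hφ s hs⟩) a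
  refine semisimple_of_pow (T.map 2 φ) hinj hk0 ?_
  rw [← map_pow48 T.toBaseTheory]
  have hnL : (n : L) ≠ 0 := by exact_mod_cast hn.ne'
  refine semisimple_of_eigen A Φ hAΦ hnL hAn fun ξ hP => ?_
  have hzero : (∀ t ∈ A.eigenspace ξ, t = 0) → Module.End.IsSemisimple (Φ.restrict hP) := by
    intro h
    refine semisimple_of_zero48 _ fun v => ?_
    exact Subtype.ext (h v.1 v.2)
  have hpow : ∀ t ∈ A.eigenspace ξ, (A ^ n) t = ξ ^ n • t := by
    intro t ht
    have h1 : A t = ξ • t := Module.End.mem_eigenspace_iff.1 ht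
    have h2 : ∀ j : ℕ, (A ^ j) t = ξ ^ j • t := by
      intro j
      induction j with
      | zero => simp
      | succ j ih =>
        rw [pow_succ, Module.End.mul_apply, h1, map_smul, ih, smul_smul, pow_succ, mul_comm]
    exact h2 n
  by_cases hξn : ξ ^ n = 1
  swap
  · apply hzero
    intro t ht
    have h1 := hpow t ht
    rw [hAn, Module.End.one_apply] at h1
    by_contra h0
    apply hξn
    have h2 : (ξ ^ n - 1) • t = 0 := by
      rw [sub_smul, ← h1, one_smul, sub_self]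
    exact sub_eq_zero.1 ((smul_eq_zero.1 h2).resolve_right h0)
  by_cases hξ2 : ξ ^ α = 1 ∨ ξ ^ β = 1 ∨ ξ ^ (α + β) = 1
  · apply hzero
    intro t ht
    exact hexc ζ σ hζ hσS hσ.2 ξ t hξn hξ2 (Module.End.mem_eigenspace_iff.1 ht)
  rw [not_or, not_or] at hξ2
  have hξ0 : ξ ≠ 0 := by
    rintro rfl
    rw [zero_pow hn.ne'] at hξn
    exact zero_ne_one hξn
  obtain ⟨C, N, iC, jC, iN, jN, v, u, a, b, hv, hu, hC, hbv, hN, hsig, hpsi, -⟩ :=
    Pool.Agent.Helper35.TD.exists_curve_ab (Ω := Ω) hn hαβ K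
  obtain ⟨σ', hσ'⟩ := hsig ζ hζ.pow_eq_one
  obtain ⟨ψ, hψ⟩ := hpsi p Fact.out inferInstance (e * k)
  have hfinC : (⊤ : IntermediateField Ω C).FG := by
    rw [← hC]
    exact fg_adjoin_of_finite (Set.toFinite _)
  have : FiniteDimensional L (T.H 1 C) := T.fin 1 C hfinC
  obtain ⟨z0, hz0, hz0'⟩ := T.curve C n α β ζ v u σ' hn' hζ hv hu hC hσ'.1 hσ'.2 ξ⁻¹
    (by rw [inv_pow, hξn, inv_one]) (by
      intro h
      rw [inv_pow, inv_eq_one] at h
      exact hξ2.1 h) (by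
      intro h
      rw [inv_pow, inv_eq_one] at h
      exact hξ2.2.1 h) (by
      intro h
      rw [inv_pow, inv_eq_one] at h
      exact hξ2.2.2 h)
  have hcommC : σ'.comp ψ = ψ.comp σ' := by
    refine hom_ext {v, u} hC _ _ ?_
    rintro s (rfl | rfl)
    · rw [AlgHom.comp_apply, AlgHom.comp_apply, hψ.1, map_pow, hσ'.1, hψ.1]
    · rw [AlgHom.comp_apply, AlgHom.comp_apply, hψ.2, map_pow, hσ'.2, map_mul, hψ.2,
        AlgHom.commutes, mul_pow, ← map_pow, hζp]
  have hcC : Commute (T.map 1 σ' : Module.End L (T.H 1 C)) (T.map 1 ψ) := by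
    show (T.map 1 σ' : Module.End L (T.H 1 C)) * T.map 1 ψ = T.map 1 ψ * T.map 1 σ'
    have h1 := T.map_comp 1 ψ σ'
    have h2 := T.map_comp 1 σ' ψ
    rw [hcommC, h2] at h1
    exact h1.symm
  obtain ⟨z, l, hz, hσz, hψz⟩ := common_eigen (T.map 1 σ' : Module.End L (T.H 1 C)) (T.map 1 ψ) hcC
    ξ⁻¹ z0 hz0 hz0'
  have hinjC : Function.Injective (T.map 1 ψ) := by
    refine T.inj 1 ψ fun a => alg_of_pow48 ψ.fieldRange {v, u} hC (p ^ (e * k)) hpe ?_ a
    rintro s (rfl | rfl)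
    · exact ⟨s, hψ.1⟩
    · exact ⟨s, hψ.2⟩
  have hl : l ≠ 0 := by
    rintro rfl
    rw [zero_smul] at hψz
    exact hz (hinjC (by rw [hψz, map_zero]))
  have huni' : ∀ z : T.H 3 (adjoin Ω (a '' (adjoin Ω S : Set K) ∪ {b v, b u / a w}) :
      IntermediateField Ω N), z = 0 := by
    apply T.uniruled
    rw [adjoin_image_union]
    refine huni N a (b v) (b u / a w) hbv ?_
    have h2 : b u ^ n = b v ^ α * (1 - b v) ^ β := by
      rw [← map_pow, hu, map_mul, map_pow, map_pow, map_sub, map_one]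
    have h3 : a w ≠ 0 := fun h => hw0 (a.injective (h.trans (map_zero a).symm))
    rw [div_pow, h2, div_mul_cancel₀ _ (pow_ne_zero _ h3)]
  have hPP : ∀ t ∈ (A.eigenspace ξ).map ((TensorProduct.mk L (T.H 2 K) (T.H 1 C)).flip z),
      TensorProduct.map Φ (T.map 1 ψ) t ∈
        (A.eigenspace ξ).map ((TensorProduct.mk L (T.H 2 K) (T.H 1 C)).flip z) := by
    rintro _ ⟨s, hs, rfl⟩
    refine ⟨l • Φ s, Submodule.smul_mem _ _ (hP s hs), ?_⟩
    simp only [LinearMap.flip_apply, TensorProduct.mk_apply, TensorProduct.map_tmul]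
    rw [hψz, TensorProduct.tmul_smul, TensorProduct.smul_tmul']
  refine semisimple_of_tensor Φ (T.map 1 ψ) z hz l hl hψz (A.eigenspace ξ) hP hPP ?_
  refine T.coniveau (Fact.out : p.Prime).ne_zero a b x y v (e * k) φk ψ hfin hfinC hxy ?_ hbv
    ?_ ?_ _ ?_ hPP
  · intro s
    rw [← mem_AF]
    have h1 : adjoin Ω {v, u} ≤ AF Ω {v} := by
      rw [adjoin_le_iff]
      have hvm : v ∈ AF Ω {v} := subset_AF _ (by simp)
      rintro s (rfl | rfl)
      · exact hvm
      · apply AF_root hn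
        rw [hu]
        exact mul_mem (pow_mem hvm _) (pow_mem (sub_mem (one_mem _) hvm) _)
    apply h1
    rw [hC]
    exact mem_top
  · unfold IsFrob
    rw [eq_top_iff, ← hK, adjoin_le_iff]
    exact fun s hs => subset_adjoin _ _ (hφS s hs)
  · unfold IsFrob
    rw [eq_top_iff, ← hC, adjoin_le_iff]
    rintro s (rfl | rfl)
    · exact subset_adjoin _ _ hψ.1
    · exact subset_adjoin _ _ hψ.2
  · rintro _ ⟨s, hs, rfl⟩
    simp only [LinearMap.flip_apply, TensorProduct.mk_apply, TensorProduct.lift.tmul,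
      LinearMap.compl₁₂_apply]
    exact Gen.cross_zero T.toBaseTheory hn hn' hζ a b (adjoin Ω S) w v u hK' hC hN hw0 hw σ hσ σ'
      hσ' huni' ξ hξ0 s (Module.End.mem_eigenspace_iff.1 hs) z hσz


end Pool.Agent.Helper48.ET
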