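import Pool.Agent.Helper48.ET.Frob
import Pool.Agent.Helper48.ET.Deg
import Pool.Agent.Helper40.SD.Tower

/-! Project ET. Frobenius, all exponents: reduction from `w` to `w ^ (p ^ m)`, and the elliptic towers
`y ^ 2 = h(x, w ^ n)`, `deg h ≤ 3`. -/

set_option autoImplicit false

namespace Pool.Agent.Helper48.ET

open IntermediateField Pool.Agent.Helper75.QC Pool.Agent.Helper40.SD

private def cod48 {Ω K E : Type} [Field Ω] [Field K] [Algebra Ω K] [Field E] [Algebra Ω E]
    (N : IntermediateField Ω E) (g : K →ₐ[Ω] E) (h : ∀ k, g k ∈ N) : K →ₐ[Ω] N where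
  toFun k := ⟨g k, h k⟩
  map_one' := Subtype.ext (map_one g)
  map_mul' a b := Subtype.ext (map_mul g a b)
  map_zero' := Subtype.ext (map_zero g)
  map_add' a b := Subtype.ext (map_add g a b)
  commutes' r := Subtype.ext (g.commutes r)

private theorem pow48 {Ω K : Type} [Field Ω] [Field K] [Algebra Ω K] (φ : K →ₐ[Ω] K) {p e : ℕ}
    {a : K} (h : φ a = a ^ p ^ e) (j : ℕ) : (φ ^ j) a = a ^ p ^ (e * j) := by
  induction j with
  | zero => simp
  | succ j ih =>
    rw [pow_succ', AlgHom.mul_apply, ih, map_pow, h, ← pow_mul, ← pow_add]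
    congr 2
    ring

/-- reduction to the field `Ω(S, w^(p^m))` -/
theorem frob_insep {p : ℕ} [Fact p.Prime] {Ω L : Type} [Field Ω] [CharP Ω p] [Field L]
    [CharZero L] [IsAlgClosed L] (T : Theory p Ω L) {e : ℕ} (he : 0 < e) (m : ℕ) {K : Type}
    [Field K] [Algebra Ω K] (hfin : (⊤ : IntermediateField Ω K).FG) (S : Set K) (w : K)
    (hK : adjoin Ω (S ∪ {w}) = ⊤) (φ : K →ₐ[Ω] K) (hφ : ∀ s ∈ S ∪ {w}, φ s = s ^ p ^ e)
    (K1 : IntermediateField Ω K) (hK1 : K1 = adjoin Ω (S ∪ {w ^ p ^ m}))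
    (H : ∀ φ1 : K1 →ₐ[Ω] K1, (∀ k : K1, (φ1 k : K) = φ k) →
      Module.End.IsSemisimple (T.map 2 φ1)) :
    Module.End.IsSemisimple (T.map 2 φ) := by
  classical
  have hp : p.Prime := Fact.out
  have hSK : ∀ s ∈ S, s ∈ K1 := by
    intro s hs
    rw [hK1]
    exact subset_adjoin _ _ (Or.inl hs)
  have hw1 : w ^ p ^ m ∈ K1 := by
    rw [hK1]
    exact subset_adjoin _ _ (Or.inr rfl)
  have hφw : φ w = w ^ p ^ e := hφ w (Or.inr rfl)
  -- the restriction of `φ`
  have hφK : ∀ k ∈ K1, φ k ∈ K1 := by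
    intro k hk
    have h1 : K1 ≤ K1.comap φ := by
      conv_lhs => rw [hK1]
      rw [adjoin_le_iff]
      rintro a (ha | rfl)
      · show φ a ∈ K1
        rw [hφ a (Or.inl ha)]
        exact pow_mem (hSK a ha) _
      · show φ (w ^ p ^ m) ∈ K1
        rw [map_pow, hφw, ← pow_mul, mul_comm, pow_mul]
        exact pow_mem hw1 _
    exact h1 hk
  obtain ⟨φ1, hφ1⟩ : ∃ φ1 : K1 →ₐ[Ω] K1, ∀ k, (φ1 k : K) = φ k :=
    ⟨cod48 K1 (φ.comp K1.val) fun k => hφK _ k.2, fun k => rfl⟩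
  have hss := H φ1 hφ1
  -- a power of `φ` has its image in `K1`
  have hj : ∀ k : K, (φ ^ m) k ∈ K1 := by
    intro k
    have h1 : (⊤ : IntermediateField Ω K) ≤ K1.comap (φ ^ m) := by
      rw [← hK, adjoin_le_iff]
      rintro a (ha | rfl)
      · show (φ ^ m) a ∈ K1
        rw [pow48 φ (hφ a (Or.inl ha))]
        exact pow_mem (hSK a ha) _
      · show (φ ^ m) a ∈ K1
        rw [pow48 φ hφw]
        have h2 : m ≤ e * m := Nat.le_mul_of_pos_left m he
        obtain ⟨r, hr⟩ := Nat.exists_eq_add_of_le h2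
        rw [hr, pow_add, pow_mul]
        exact pow_mem hw1 _
    exact h1 (mem_top (x := k))
  obtain ⟨ψ, hψ⟩ : ∃ ψ : K →ₐ[Ω] K1, K1.val.comp ψ = φ ^ m :=
    ⟨cod48 K1 (φ ^ m) hj, AlgHom.ext fun k => rfl⟩
  have hfd : FiniteDimensional L (T.H 2 K) := T.fin 2 K hfin
  have hinj : Function.Injective (T.map 2 (φ ^ m)) := by
    refine T.inj 2 (φ ^ m) ?_
    have h1 : (⊤ : IntermediateField Ω K) ≤
        (algebraicClosure (φ ^ m).fieldRange K).restrictScalars Ω := by
      rw [← hK, adjoin_le_iff]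
      intro a ha
      rw [SetLike.mem_coe, mem_restrictScalars, mem_algebraicClosure_iff]
      refine IsAlgebraic.of_pow (n := p ^ (e * m)) (pow_pos hp.pos _) ?_
      rw [← pow48 φ (hφ a ha) m]
      exact isAlgebraic_algebraMap (⟨(φ ^ m) a, ⟨a, rfl⟩⟩ : (φ ^ m).fieldRange)
    intro a
    have h3 := h1 (mem_top (x := a))
    rw [mem_restrictScalars, mem_algebraicClosure_iff] at h3
    exact h3
  have hsurj : Function.Surjective (T.map 2 (φ ^ m)) := LinearMap.injective_iff_surjective.1 hinj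
  have hsurj2 : Function.Surjective (T.map 2 K1.val) := by
    rw [← hψ, T.map_comp] at hsurj
    exact Function.Surjective.of_comp (g := T.map 2 ψ) hsurj
  refine semisimple_of_surj (T.map 2 φ1) (T.map 2 φ) (T.map 2 K1.val) hsurj2 ?_ hss
  intro v
  have h1 : K1.val.comp φ1 = φ.comp K1.val := AlgHom.ext fun k => hφ1 k
  have h2 := congrArg (fun g => T.map 2 g v) h1
  simp only [T.map_comp, LinearMap.comp_apply] at h2
  exact h2

end Pool.Agent.Helper48.ET
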