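import Pool.Agent.Helper48.ET.FrobInsep
import Pool.Agent.Helper35.TD.Towers

/-! Project ET. Frobenius is semisimple on the second cohomology of the surfaces
`y ^ 2 = h(x, w ^ n)`, `deg h ≤ 3`, and `w ^ n q ^ 2 = f`, all `n`. -/

set_option autoImplicit false

namespace Pool.Agent.Helper48.ET

open IntermediateField Pool.Agent.Helper75.QC Pool.Agent.Helper75.TC Pool.Agent.Helper40.SD
  Pool.Agent.Helper35.TD

/-- **Consumer for Frobenius** (exponent prime to the characteristic) -/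
theorem InputM.frob {p : ℕ} [Fact p.Prime] {Ω L : Type} [Field Ω] [CharP Ω p] [IsAlgClosed Ω]
    [Field L] [CharZero L] [IsAlgClosed L] {T : Theory p Ω L} {n e : ℕ} {K : Type} [Field K]
    [Algebra Ω K] {M₀ : IntermediateField Ω K} {w : K} (h : InputM T.toBaseTheory n M₀ w)
    (hn : 0 < n) (hn' : (n : Ω) ≠ 0) (S : Set K) (hfin : S.Finite) (hS : M₀ = adjoin Ω S)
    (φ : K →ₐ[Ω] K) (hφ : ∀ s ∈ S ∪ {w}, φ s = s ^ p ^ e) :
    Module.End.IsSemisimple (T.map 2 φ) := by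
  subst hS
  have hgen : adjoin Ω (S ∪ {w}) = ⊤ := by rw [← adjoin_union, h.gen]
  rcases h.main with h1 | ⟨hw0, α, β, hab, huni, hexc⟩
  · exact semisimple_of_uniruled T h1 φ
  have hfg : (⊤ : IntermediateField Ω K).FG := by
    rw [← hgen]
    exact fg_adjoin_of_finite (hfin.union (Set.finite_singleton w))
  obtain ⟨x, y, hxy⟩ := h.tr
  refine frob_gen T α β hn hn' hab hfg x y hxy S w hgen hw0 h.mem h.deg ?_ ?_ φ hφ
  · intro N _ _ g v s hv hs
    rw [← adjoin_image_union]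
    exact huni N g v s hv hs
  · intro ζ σ hζ hσ
    exact hexc ζ σ hζ (fix_adjoin S σ hσ)

/-- **Elliptic towers, Frobenius.** -/
theorem frob_tower {p : ℕ} [Fact p.Prime] {Ω L : Type} [Field Ω] [CharP Ω p] [IsAlgClosed Ω]
    [Field L] [CharZero L] [IsAlgClosed L] (T : Theory p Ω L) (h2 : (2 : Ω) ≠ 0)
    (h : MvPolynomial (Fin 2) Ω) (hh : h.totalDegree ≤ 3) {n e : ℕ} (hn : 0 < n) (he : 0 < e)
    {K : Type} [Field K] [Algebra Ω K] (x y w : K) (hK : adjoin Ω {x, y, w} = ⊤)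
    (hy : y ^ 2 = MvPolynomial.aeval ![x, w ^ n] h) (φ : K →ₐ[Ω] K)
    (hφ : φ x = x ^ p ^ e ∧ φ y = y ^ p ^ e ∧ φ w = w ^ p ^ e) :
    Module.End.IsSemisimple (T.map 2 φ) := by
  classical
  have hp : p.Prime := Fact.out
  obtain ⟨m, n', hpn, hnn⟩ := Nat.exists_eq_pow_mul_and_not_dvd hn.ne' p hp.ne_one
  have hn0 : 0 < n' := by
    rcases Nat.eq_zero_or_pos n' with h | h
    · subst h
      exact absurd (dvd_zero p) hpn
    · exact h
  have hcast : (n' : Ω) ≠ 0 := by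
    rw [Ne, CharP.cast_eq_zero_iff Ω p]
    exact hpn
  have hfin : (⊤ : IntermediateField Ω K).FG := by
    rw [← hK]
    exact fg_adjoin_of_finite (Set.toFinite _)
  have hset : ({x, y} : Set K) ∪ {w} = {x, y, w} := by
    ext a
    simp only [Set.mem_union, Set.mem_insert_iff, Set.mem_singleton_iff]
    tauto
  obtain ⟨K1, hK1⟩ : ∃ K1 : IntermediateField Ω K, K1 = adjoin Ω ({x, y} ∪ {w ^ p ^ m}) := ⟨_, rfl⟩
  refine frob_insep T he m hfin {x, y} w (by rw [hset, hK]) φ (fun s hs => ?_) K1 hK1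
    fun φ1 hφ1 => ?_
  · rw [hset] at hs
    simp only [Set.mem_insert_iff, Set.mem_singleton_iff] at hs
    rcases hs with rfl | rfl | rfl
    · exact hφ.1
    · exact hφ.2.1
    · exact hφ.2.2
  have hx : x ∈ K1 := by rw [hK1]; exact subset_adjoin _ _ (by simp)
  have hy0 : y ∈ K1 := by rw [hK1]; exact subset_adjoin _ _ (by simp)
  have hw : w ^ p ^ m ∈ K1 := by rw [hK1]; exact subset_adjoin _ _ (by simp)
  obtain ⟨x1, hx1⟩ : ∃ x1 : K1, (x1 : K) = x := ⟨⟨x, hx⟩, rfl⟩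
  obtain ⟨y1, hy1⟩ : ∃ y1 : K1, (y1 : K) = y := ⟨⟨y, hy0⟩, rfl⟩
  obtain ⟨w1, hw1⟩ : ∃ w1 : K1, (w1 : K) = w ^ p ^ m := ⟨⟨_, hw⟩, rfl⟩
  have htop : adjoin Ω {x1, y1, w1} = ⊤ := by
    apply lift_injective K1
    rw [lift_top, lift_adjoin]
    simp only [Set.image_insert_eq, Set.image_singleton, hx1, hy1, hw1]
    rw [hK1]
    congr 1
    ext a
    simp only [Set.mem_union, Set.mem_insert_iff, Set.mem_singleton_iff]
    tauto
  have hyy : y1 ^ 2 = MvPolynomial.aeval ![x1, w1 ^ n'] h := by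
    apply Subtype.ext
    have h3 := map_aeval75 K1.val x1 (w1 ^ n') h
    have h4 : K1.val (w1 ^ n') = w ^ n := by
      rw [map_pow]
      show (w1 : K) ^ n' = w ^ n
      rw [hw1, ← pow_mul, ← hnn]
    have h5 : K1.val x1 = x := hx1
    rw [h4, h5, ← hy] at h3
    show ((y1 : K)) ^ 2 = K1.val _
    rw [h3, hy1]
  have hyA : y1 ^ 2 ∈ adjoin Ω {x1, w1 ^ n'} := by
    rw [hyy]
    exact aeval_mem75 x1 (w1 ^ n') h
  rcases tower_deg hn0 x1 y1 w1 htop hyA with hU | hdeg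
  · exact semisimple_of_uniruled T hU φ1
  have hI := input_tower T.toBaseTheory h2 h hh hn0 hcast x1 y1 w1 htop hdeg hyy
  have hφw : φ1 w1 = w1 ^ p ^ e := by
    apply Subtype.ext
    rw [hφ1, hw1, map_pow, hφ.2.2]
    show (w ^ p ^ e) ^ p ^ m = (w1 : K) ^ p ^ e
    rw [hw1, ← pow_mul, ← pow_mul, mul_comm]
  refine InputM.frob (e := e) hI hn0 hcast {x1, y1, w1 ^ n'} (Set.toFinite _) rfl φ1 ?_
  rintro s (hs | hs)
  · simp only [Set.mem_insert_iff, Set.mem_singleton_iff] at hs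
    rcases hs with rfl | rfl | rfl
    · apply Subtype.ext
      rw [hφ1, hx1, hφ.1]
      show x ^ p ^ e = (s : K) ^ p ^ e
      rw [hx1]
    · apply Subtype.ext
      rw [hφ1, hy1, hφ.2.1]
      show y ^ p ^ e = (s : K) ^ p ^ e
      rw [hy1]
    · rw [map_pow, hφw, ← pow_mul, ← pow_mul, mul_comm]
  · rw [Set.mem_singleton_iff.1 hs]
    exact hφw

/-- **Pairs, Frobenius**: `w ^ n q ^ 2 = f`, `deg f ≤ 4`, `deg q ≤ 2`, or the degrees `6`, `3` for the
weights `1, 2`. -/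
theorem frob_pair {p : ℕ} [Fact p.Prime] {Ω L : Type} [Field Ω] [CharP Ω p] [IsAlgClosed Ω]
    [Field L] [CharZero L] [IsAlgClosed L] (T : Theory p Ω L) (h2 : (2 : Ω) ≠ 0)
    (f q : MvPolynomial (Fin 2) Ω) (hfq : Helper15.QM.Pair f q) {n e : ℕ} (hn : 0 < n)
    (he : 0 < e) {K : Type} [Field K] [Algebra Ω K] (x y w : K) (hK : adjoin Ω {x, y, w} = ⊤)
    (hdeg : Module.finrank (adjoin Ω {x, y}) K = n)
    (hq : MvPolynomial.aeval ![x, y] q ≠ 0)
    (hw : w ^ n * MvPolynomial.aeval ![x, y] q ^ 2 = MvPolynomial.aeval ![x, y] f)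
    (φ : K →ₐ[Ω] K) (hφ : φ x = x ^ p ^ e ∧ φ y = y ^ p ^ e ∧ φ w = w ^ p ^ e) :
    Module.End.IsSemisimple (T.map 2 φ) := by
  have hwF : w ^ n ∈ adjoin Ω {x, y} := by
    have h1 : w ^ n = MvPolynomial.aeval ![x, y] f * (MvPolynomial.aeval ![x, y] q ^ 2)⁻¹ := by
      rw [← hw]
      field_simp
    rw [h1]
    exact mul_mem (aeval_mem75 x y f) (inv_mem (pow_mem (aeval_mem75 x y q) _))
  refine Pool.Agent.Helper75.QC.insep_gen T hn he x y w hK hwF hdeg φ hφ ?_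
  intro m n' hnn hn0 hcast K1 x1 y1 w1 hx hy hw1 htop hdeg1 φ1 hφ1
  have e1 : K1.val x1 = x := hx
  have e2 : K1.val y1 = y := hy
  have ef : K1.val (MvPolynomial.aeval ![x1, y1] f) = MvPolynomial.aeval ![x, y] f := by
    rw [map_aeval75, e1, e2]
  have eq : K1.val (MvPolynomial.aeval ![x1, y1] q) = MvPolynomial.aeval ![x, y] q := by
    rw [map_aeval75, e1, e2]
  refine (Helper15.QM.input_pair T.toBaseTheory h2 f q hfq hn0 hcast x1 y1 w1 htop hdeg1 ?_ ?_).frob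
    hn0 hcast φ1 hφ1
  · intro h0
    apply hq
    rw [← eq, h0, map_zero]
  · apply Subtype.ext
    show (w1 : K) ^ n' * (K1.val (MvPolynomial.aeval ![x1, y1] q)) ^ 2 =
      K1.val (MvPolynomial.aeval ![x1, y1] f)
    rw [ef, eq, ← hw, hnn, hw1, ← pow_mul]

end Pool.Agent.Helper48.ET
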