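import Pool.Agent.Helper48.ET.WSolid
import Pool.Agent.Helper40.SD.Inp

/-!
# The threefolds `v (1 - v) g(x, y) ^ 2 = s ^ n f(x, y)`

`uni_cover`: let `deg f ≤ 2 G + D` and `deg g ≤ G` if `x, y` have the degrees `p, q`, `n ≤ 2 m` and
`(m - 1) D ≤ n (p + q - G)`. Then the function field of `v (1 - v) g ^ 2 = s ^ n f` is uniruled in
characteristic different from two: with `b = 1 / s` and `r = b ^ m g (2 v - 1)` it is the double
solid `r ^ 2 = b ^ (2 m) g ^ 2 - 4 b ^ (2 m - n) f`, weights `n p, n q, D`.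
-/

set_option autoImplicit false

namespace Pool.Agent.Helper48.ET

open IntermediateField Pool.Agent.Helper40.SD Pool.Agent.Helper75.QC

/-- a field which is generated by elements of the function field of a weighted double solid -/
theorem uni_in_weighted {Ω N : Type} [Field Ω] [IsAlgClosed Ω] (h2 : (2 : Ω) ≠ 0) [Field N]
    [Algebra Ω N] (w : Fin 3 → ℕ) (hw : 0 < ∑ i, w i) (B : MvPolynomial (Fin 3) Ω)
    (hB : ∀ s ∈ B.support, ∑ i, w i * s i ≤ 2 * ∑ i, w i) (x y p r : N)
    (hr : r ^ 2 = MvPolynomial.aeval ![x, y, p] B) (S : Set N)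
    (hS : ∀ a ∈ S, a ∈ adjoin Ω {x, y, p, r}) :
    Uniruled Ω (adjoin Ω S : IntermediateField Ω N) 3 := by
  refine uniruled_adjoin (AlgHom.id Ω N) S {x, y, p, r} hS ?_
  set K := (adjoin Ω {x, y, p, r} : IntermediateField Ω N) with hK
  have mx : x ∈ K := subset_adjoin _ _ (by simp)
  have my : y ∈ K := subset_adjoin _ _ (by simp)
  have mp : p ∈ K := subset_adjoin _ _ (by simp)
  have mr : r ∈ K := subset_adjoin _ _ (by simp)
  refine uni_weighted h2 w hw B hB ![(⟨x, mx⟩ : K), ⟨y, my⟩, ⟨p, mp⟩] (⟨r, mr⟩ : K) ?_ ?_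
  · apply Subtype.ext
    have h1 : ((MvPolynomial.aeval ![(⟨x, mx⟩ : K), ⟨y, my⟩, ⟨p, mp⟩] B : K) : N) =
        MvPolynomial.aeval ![x, y, p] B := by
      have h3 : (K.val).comp (MvPolynomial.aeval ![(⟨x, mx⟩ : K), ⟨y, my⟩, ⟨p, mp⟩]) =
          MvPolynomial.aeval (R := Ω) ![x, y, p] := by
        ext i
        fin_cases i <;> simp
      exact DFunLike.congr_fun h3 B
    rw [h1, ← hr]
    rfl
  · apply lift_injective K
    rw [lift_top, lift_adjoin]
    refine Eq.trans ?_ hK.symm
    congr 1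
    ext a
    simp only [Set.image_union, Set.image_singleton, Set.mem_union, Set.mem_image,
      Set.mem_range, Set.mem_singleton_iff, Set.mem_insert_iff]
    constructor
    · rintro (⟨b, ⟨i, rfl⟩, rfl⟩ | rfl)
      · fin_cases i
        · exact Or.inl rfl
        · exact Or.inr (Or.inl rfl)
        · exact Or.inr (Or.inr (Or.inl rfl))
      · exact Or.inr (Or.inr (Or.inr rfl))
    · rintro (rfl | rfl | rfl | rfl)
      · exact Or.inl ⟨_, ⟨0, rfl⟩, rfl⟩
      · exact Or.inl ⟨_, ⟨1, rfl⟩, rfl⟩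
      · exact Or.inl ⟨_, ⟨2, rfl⟩, rfl⟩
      · exact Or.inr rfl

/-- the weighted degree is at most `D` -/
def WD {R : Type} [CommRing R] {k : ℕ} (w : Fin k → ℕ) (D : ℕ) (B : MvPolynomial (Fin k) R) :
    Prop := ∀ s ∈ B.support, ∑ i, w i * s i ≤ D

namespace WD

variable {R : Type} [CommRing R] {k : ℕ} {w : Fin k → ℕ} {D D' : ℕ}
  {A B : MvPolynomial (Fin k) R}

theorem sub (hA : WD w D A) (hB : WD w D B) : WD w D (A - B) := by
  classical
  intro s hs
  rcases Finset.mem_union.1 (MvPolynomial.support_sub (Fin k) A B hs) with h | h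
  · exact hA s h
  · exact hB s h

theorem mul (hA : WD w D A) (hB : WD w D' B) : WD w (D + D') (A * B) := by
  classical
  intro s hs
  obtain ⟨a, ha, b, hb, rfl⟩ := Finset.mem_add.1 (MvPolynomial.support_mul A B hs)
  simp only [Finsupp.add_apply, mul_add, Finset.sum_add_distrib]
  exact add_le_add (hA a ha) (hB b hb)

theorem const (a : R) : WD w 0 (MvPolynomial.C a : MvPolynomial (Fin k) R) := by
  classical
  intro s hs
  rw [MvPolynomial.mem_support_iff, MvPolynomial.coeff_C] at hs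
  have h : 0 = s := by
    by_contra h
    exact hs (if_neg h)
  subst h
  simp

theorem X_pow (i : Fin k) (n : ℕ) :
    WD w (w i * n) (MvPolynomial.X i ^ n : MvPolynomial (Fin k) R) := by
  classical
  intro s hs
  rw [MvPolynomial.mem_support_iff, MvPolynomial.coeff_X_pow] at hs
  have h : Finsupp.single i n = s := by
    by_contra h
    exact hs (if_neg h)
  subst h
  rw [Finset.sum_eq_single i]
  · simp
  · intro j _ hj
    rw [Finsupp.single_eq_of_ne hj, mul_zero]
  · intro h
    exact absurd (Finset.mem_univ _) h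

theorem mono (hA : WD w D A) (h : D ≤ D') : WD w D' A := fun s hs => (hA s hs).trans h

end WD

theorem wd_rename {R : Type} [CommRing R] (f : MvPolynomial (Fin 2) R) (a b c D : ℕ)
    (hf : ∀ s ∈ f.support, a * s 0 + b * s 1 ≤ D) :
    WD ![a, b, c] D (MvPolynomial.rename Fin.castSucc f) := by
  classical
  intro s hs
  rw [MvPolynomial.support_rename_of_injective (Fin.castSucc_injective 2), Finset.mem_image] at hs
  obtain ⟨t, ht, rfl⟩ := hs
  have h0 : (Finsupp.mapDomain Fin.castSucc t) (0 : Fin 3) = t 0 :=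
    Finsupp.mapDomain_apply (Fin.castSucc_injective 2) t 0
  have h1 : (Finsupp.mapDomain Fin.castSucc t) (1 : Fin 3) = t 1 :=
    Finsupp.mapDomain_apply (Fin.castSucc_injective 2) t 1
  have h2 : (Finsupp.mapDomain Fin.castSucc t) (2 : Fin 3) = 0 := by
    apply Finsupp.mapDomain_notin_range
    rintro ⟨j, hj⟩
    exact absurd hj (Fin.castSucc_lt_last j).ne
  rw [Fin.sum_univ_three, h0, h1, h2]
  simpa using hf t ht

private theorem val_mem48 {Ω N : Type} [Field Ω] [Field N] [Algebra Ω N]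
    (f : MvPolynomial (Fin 2) Ω) (x y : N) (F : IntermediateField Ω N) (hx : x ∈ F) (hy : y ∈ F) :
    MvPolynomial.aeval ![x, y] f ∈ F := by
  have h1 : MvPolynomial.aeval ![x, y] f ∈ (MvPolynomial.aeval (R := Ω) ![x, y]).range := ⟨f, rfl⟩
  rw [← Algebra.adjoin_range_eq_range_aeval] at h1
  have h2 := algebra_adjoin_le_adjoin Ω _ h1
  refine adjoin_le_iff.2 ?_ h2
  rintro _ ⟨i, rfl⟩
  fin_cases i
  · exact hx
  · exact hy

theorem uni_cover {Ω N : Type} [Field Ω] [IsAlgClosed Ω] [Field N] [Algebra Ω N]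
    (h2 : (2 : Ω) ≠ 0) (f g : MvPolynomial (Fin 2) Ω) (p q G D n m : ℕ) (hp : 0 < p) (hn : 0 < n)
    (hnm : n ≤ 2 * m) (hf : ∀ s ∈ f.support, p * s 0 + q * s 1 ≤ 2 * G + D)
    (hg : ∀ s ∈ g.support, p * s 0 + q * s 1 ≤ G)
    (hc : m * D + n * G ≤ n * (p + q) + D) (x y v s : N) (hg0 : MvPolynomial.aeval ![x, y] g ≠ 0)
    (h : v * (1 - v) * MvPolynomial.aeval ![x, y] g ^ 2 = s ^ n * MvPolynomial.aeval ![x, y] f) :
    Uniruled Ω (adjoin Ω {x, y, v, s} : IntermediateField Ω N) 3 := by
  by_cases hs : s = 0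
  · subst hs
    rw [zero_pow hn.ne', zero_mul] at h
    refine uni_in_weighted h2 ![1, 1, 1] (by simp [Fin.sum_univ_three]) 0 (by simp) x y 0 0
      (by simp) _ ?_
    intro a ha
    have hv : v ∈ adjoin Ω ({x, y, 0, 0} : Set N) := by
      rcases mul_eq_zero.1 ((mul_eq_zero.1 h).resolve_right (pow_ne_zero _ hg0)) with h | h
      · rw [h]
        exact zero_mem _
      · rw [← sub_eq_zero.1 h]
        exact one_mem _
    rcases ha with rfl | rfl | rfl | rfl
    · exact subset_adjoin _ _ (by simp)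
    · exact subset_adjoin _ _ (by simp)
    · exact hv
    · exact zero_mem _
  · have h2N : (2 : N) ≠ 0 := by
      intro h0
      apply h2
      apply (algebraMap Ω N).injective
      rw [map_ofNat, map_zero, h0]
    have hb : s⁻¹ ≠ 0 := inv_ne_zero hs
    set gv := MvPolynomial.aeval ![x, y] g with hgv
    refine uni_in_weighted h2 ![n * p, n * q, D] ?_
      (MvPolynomial.X 2 ^ (2 * m) * (MvPolynomial.rename Fin.castSucc g *
        MvPolynomial.rename Fin.castSucc g) -
        MvPolynomial.C 4 * (MvPolynomial.X 2 ^ (2 * m - n) *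
        MvPolynomial.rename Fin.castSucc f)) ?_ x y s⁻¹ (s⁻¹ ^ m * gv * (2 * v - 1)) ?_ _ ?_
    · rw [Fin.sum_univ_three]
      have := Nat.mul_pos hn hp
      simp only [Matrix.cons_val_zero]
      omega
    · have hW : (∑ i, (![n * p, n * q, D] : Fin 3 → ℕ) i) = n * p + n * q + D := by
        rw [Fin.sum_univ_three]
        rfl
      rw [hW]
      have hfn : ∀ s ∈ f.support, n * p * s 0 + n * q * s 1 ≤ n * (2 * G + D) := by
        intro s hs
        have := Nat.mul_le_mul_left n (hf s hs)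
        linarith [this]
      have hgn : ∀ s ∈ g.support, n * p * s 0 + n * q * s 1 ≤ n * G := by
        intro s hs
        have := Nat.mul_le_mul_left n (hg s hs)
        linarith [this]
      have e1 : WD ![n * p, n * q, D] (2 * m * D + 2 * n * G)
          (MvPolynomial.X 2 ^ (2 * m) * (MvPolynomial.rename Fin.castSucc g *
            MvPolynomial.rename Fin.castSucc g) : MvPolynomial (Fin 3) Ω) := by
        have e0 := wd_rename g (n * p) (n * q) D (n * G) hgn
        refine ((WD.X_pow 2 (2 * m)).mul (e0.mul e0)).mono ?_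
        change D * (2 * m) + (n * G + n * G) ≤ _
        linarith
      have e2 : WD ![n * p, n * q, D] (2 * m * D + 2 * n * G)
          (MvPolynomial.C 4 * (MvPolynomial.X 2 ^ (2 * m - n) *
            MvPolynomial.rename Fin.castSucc f) : MvPolynomial (Fin 3) Ω) := by
        refine ((WD.const 4).mul ((WD.X_pow 2 (2 * m - n)).mul
          (wd_rename f _ _ _ (n * (2 * G + D)) hfn))).mono ?_
        change 0 + (D * (2 * m - n) + n * (2 * G + D)) ≤ _
        obtain ⟨e, he⟩ := Nat.exists_eq_add_of_le hnm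
        rw [he, Nat.add_sub_cancel_left]
        nlinarith
      refine (e1.sub e2).mono ?_
      nlinarith
    · rw [map_sub, map_mul, map_mul, map_mul, map_mul, map_pow, map_pow, MvPolynomial.aeval_X,
        MvPolynomial.aeval_rename, MvPolynomial.aeval_rename]
      have h3 : (![x, y, s⁻¹] : Fin 3 → N) ∘ Fin.castSucc = ![x, y] := by
        funext i
        fin_cases i <;> rfl
      rw [h3]
      have h4 : (MvPolynomial.aeval (R := Ω) (![x, y, s⁻¹] : Fin 3 → N)) (MvPolynomial.C 4) = 4 := by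
        rw [MvPolynomial.aeval_C, map_ofNat]
      rw [h4, ← hgv]
      change _ = s⁻¹ ^ (2 * m) * (gv * gv) - 4 * (s⁻¹ ^ (2 * m - n) * _)
      have h5 : s⁻¹ ^ (2 * m - n) = s⁻¹ ^ (2 * m) * s ^ n := by
        obtain ⟨e, he⟩ := Nat.exists_eq_add_of_le hnm
        rw [he, Nat.add_sub_cancel_left, pow_add, mul_right_comm, ← mul_pow, inv_mul_cancel₀ hs,
          one_pow, one_mul]
      rw [h5, mul_pow, mul_pow, ← pow_mul, mul_comm m 2]
      linear_combination (-4) * s⁻¹ ^ (2 * m) * h
    · intro a ha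
      have m1 : s⁻¹ ∈ adjoin Ω ({x, y, s⁻¹, s⁻¹ ^ m * gv * (2 * v - 1)} : Set N) :=
        subset_adjoin _ _ (by simp)
      have m2 : s⁻¹ ^ m * gv * (2 * v - 1) ∈
          adjoin Ω ({x, y, s⁻¹, s⁻¹ ^ m * gv * (2 * v - 1)} : Set N) :=
        subset_adjoin _ _ (by simp)
      have m3 : gv ∈ adjoin Ω ({x, y, s⁻¹, s⁻¹ ^ m * gv * (2 * v - 1)} : Set N) :=
        val_mem48 g x y _ (subset_adjoin _ _ (by simp)) (subset_adjoin _ _ (by simp))
      have m4 : v ∈ adjoin Ω ({x, y, s⁻¹, s⁻¹ ^ m * gv * (2 * v - 1)} : Set N) := by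
        have h6 : (s⁻¹ ^ m * gv * (2 * v - 1) / (s⁻¹ ^ m * gv) + 1) / 2 = v := by
          rw [mul_comm, mul_div_assoc, div_self (mul_ne_zero (pow_ne_zero _ hb) hg0)]
          field_simp
          ring
        have h8 := div_mem (add_mem (div_mem m2 (mul_mem (pow_mem m1 m) m3)) (one_mem _))
          (show (2 : N) ∈ adjoin Ω ({x, y, s⁻¹, s⁻¹ ^ m * gv * (2 * v - 1)} : Set N) by
            exact_mod_cast
              (adjoin Ω ({x, y, s⁻¹, s⁻¹ ^ m * gv * (2 * v - 1)} : Set N)).natCast_mem 2)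
        rwa [h6] at h8
      have m5 : s ∈ adjoin Ω ({x, y, s⁻¹, s⁻¹ ^ m * gv * (2 * v - 1)} : Set N) := by
        have h7 := inv_mem m1
        rwa [inv_inv] at h7
      rcases ha with ha | ha | ha | ha
      · rw [ha]
        exact subset_adjoin _ _ (by simp)
      · rw [ha]
        exact subset_adjoin _ _ (by simp)
      · rw [ha]
        exact m4
      · have h9 : a = s := ha
        rw [h9]
        exact m5

end Pool.Agent.Helper48.ET
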