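import Pool.Agent.Helper48.ET.Weighted

/-!
# Polynomial curves through the generic point of a graph

`poly_setup`: a threefold `ψ(r) = B(x, y, z)` is uniruled if through every point over an
algebraically closed field there is a curve, given by polynomials of bounded degree, on which the
cover is rational.
-/

set_option autoImplicit false

namespace Pool.Agent.Helper48.ET

open IntermediateField Pool.Agent.Helper40.SD Pool.Agent.Helper75.QC

theorem aeval_curve {Ω E : Type} [Field Ω] [Field E] [Algebra Ω E] (M : IntermediateField Ω E)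
    {m : ℕ} (c : Fin m → Polynomial M) (t : E) (G : MvPolynomial (Fin m) Ω) :
    Polynomial.aeval t (MvPolynomial.aeval c G) =
      MvPolynomial.aeval (fun i => Polynomial.aeval t (c i)) G := by
  have : ((Polynomial.aeval (R := M) t).restrictScalars Ω).comp (MvPolynomial.aeval c) =
      MvPolynomial.aeval (R := Ω) (fun i => Polynomial.aeval t (c i)) := by
    ext i
    simp
  exact DFunLike.congr_fun this G

theorem aeval_map_curve {Ω E : Type} [Field Ω] [Field E] [Algebra Ω E]
    (M : IntermediateField Ω E) {m : ℕ} (c : Fin m → Polynomial M) (B : MvPolynomial (Fin m) Ω) :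
    MvPolynomial.aeval c (MvPolynomial.map (algebraMap Ω M) B) = MvPolynomial.aeval c B := by
  rw [MvPolynomial.aeval_map_algebraMap]

/-- If a curve through a generic point `P` of the hypersurface `L = 0` is not contained in it, its
generic point is a generic point of the space. -/
theorem indep_curve {Ω E : Type} [Field Ω] [Field E] [Algebra Ω E] {m : ℕ}
    (M : IntermediateField Ω E) (P : Fin m → M) (c : Fin m → Polynomial M)
    (hc : ∀ i, (c i).eval 0 = P i) (t : E) (ht : Transcendental M t)
    (L : MvPolynomial (Fin m) Ω) (hL0 : MvPolynomial.aeval P L = 0)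
    (hL : ∀ G : MvPolynomial (Fin m) Ω, MvPolynomial.aeval P G = 0 → L ∣ G)
    (hLt : MvPolynomial.aeval (fun i => Polynomial.aeval t (c i)) L ≠ 0) :
    AlgebraicIndependent Ω (fun i => Polynomial.aeval t (c i)) := by
  have key : ∀ G : MvPolynomial (Fin m) Ω,
      MvPolynomial.aeval (fun i => Polynomial.aeval t (c i)) G = 0 → L ∣ G := by
    intro G hG
    apply hL
    set g : Polynomial M := MvPolynomial.aeval c G with hg
    have h1 : Polynomial.aeval t g = MvPolynomial.aeval (fun i => Polynomial.aeval t (c i)) G :=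
      aeval_curve M c t G
    have h2 : g = 0 := coeff_zero_of ht g (h1.trans hG)
    have h3 : Polynomial.aeval (0 : M) g = MvPolynomial.aeval P G := by
      have : ((Polynomial.aeval (R := M) (0 : M)).restrictScalars Ω).comp
          (MvPolynomial.aeval c) = MvPolynomial.aeval (R := Ω) P := by
        ext i
        simp only [AlgHom.coe_comp, Function.comp_apply, MvPolynomial.aeval_X,
          AlgHom.coe_restrictScalars']
        rw [Polynomial.coe_aeval_eq_eval, hc]
      exact DFunLike.congr_fun this G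
    rw [← h3, h2, map_zero]
  have hLu : ¬ IsUnit L := by
    intro hu
    exact (hu.map (MvPolynomial.aeval P)).ne_zero hL0
  rw [algebraicIndependent_iff]
  intro G hG
  by_contra hne
  obtain ⟨k, G', hG', hGG⟩ := WfDvdMonoid.max_power_factor' hne hLu
  rw [hGG, map_mul, map_pow] at hG
  rcases mul_eq_zero.1 hG with h | h
  · exact hLt (eq_zero_of_pow_eq_zero h)
  · exact hG' (key G' h)

/-- no nonconstant polynomial curve of degree at most `D` lies on the graph of
`x ^ (D + 1) + y ^ (D + 2) + k` -/
theorem graph_curve {M : Type} [Field M] (D : ℕ) (c : Fin 3 → Polynomial M)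
    (hD : ∀ i, (c i).natDegree ≤ D) (k : M)
    (h : c 2 = c 0 ^ (D + 1) + c 1 ^ (D + 2) + Polynomial.C k) (i : Fin 3) :
    (c i).natDegree = 0 := by
  have h2 : (c 0 ^ (D + 1) + c 1 ^ (D + 2)).natDegree ≤ D := by
    have h3 : c 0 ^ (D + 1) + c 1 ^ (D + 2) = c 2 - Polynomial.C k := by rw [h]; ring
    rw [h3, Polynomial.natDegree_sub_C]
    exact hD 2
  have e0 : (c 0 ^ (D + 1)).natDegree = (D + 1) * (c 0).natDegree := Polynomial.natDegree_pow _ _
  have e1 : (c 1 ^ (D + 2)).natDegree = (D + 2) * (c 1).natDegree := Polynomial.natDegree_pow _ _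
  have hz : (c 0).natDegree = 0 ∧ (c 1).natDegree = 0 := by
    rcases lt_trichotomy (c 0 ^ (D + 1)).natDegree (c 1 ^ (D + 2)).natDegree with hlt | heq | hgt
    · rw [Polynomial.natDegree_add_eq_right_of_natDegree_lt hlt, e1] at h2
      have h4 : (c 1).natDegree = 0 := by
        by_contra h5
        have : 1 ≤ (c 1).natDegree := Nat.one_le_iff_ne_zero.2 h5
        nlinarith
      rw [e0, e1, h4] at hlt
      omega
    · rw [e0, e1] at heq
      have h4 : (D + 2) ∣ (D + 1) * (c 0).natDegree := ⟨_, heq⟩
      have h5 : Nat.Coprime (D + 2) (D + 1) := by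
        rw [Nat.coprime_comm]
        exact (Nat.coprime_self_add_right (m := D + 1) (n := 1)).2 (Nat.coprime_one_right _)
      have h6 := h5.dvd_of_dvd_mul_left h4
      have h7 : (c 0).natDegree = 0 := by
        by_contra h8
        have := Nat.le_of_dvd (Nat.pos_of_ne_zero h8) h6
        have := hD 0
        omega
      rw [h7, mul_zero] at heq
      have h9 := heq.symm
      rw [Nat.mul_eq_zero] at h9
      rcases h9 with h9 | h9
      · omega
      · exact ⟨h7, h9⟩
    · rw [Polynomial.natDegree_add_eq_left_of_natDegree_lt hgt, e0] at h2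
      have h4 : (c 0).natDegree = 0 := by
        by_contra h5
        have : 1 ≤ (c 0).natDegree := Nat.one_le_iff_ne_zero.2 h5
        nlinarith
      rw [e0, e1, h4] at hgt
      omega
  have h2' : (c 2).natDegree = 0 := by
    rw [h, Polynomial.natDegree_add_C]
    refine Nat.le_zero.1 ((Polynomial.natDegree_add_le _ _).trans ?_)
    rw [e0, e1, hz.1, hz.2]
    simp
  fin_cases i
  · exact hz.1
  · exact hz.2
  · exact h2'

/-- The set-up: a curve of degree at most `D` through the generic point of the graph of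
`x ^ (D + 1) + y ^ (D + 2) + k` over which the cover is rational. -/
theorem poly_setup {Ω K : Type} [Field Ω] [IsAlgClosed Ω] [Field K] [Algebra Ω K]
    (ψ : Polynomial Ω) (hψ : ψ.natDegree ≠ 0) (B : MvPolynomial (Fin 3) Ω) (x : Fin 3 → K)
    (r : K) (hr : Polynomial.aeval r ψ = MvPolynomial.aeval x B)
    (hgen : adjoin Ω (Set.range x ∪ {r}) = ⊤) (D : ℕ)
    (hline : ∀ (E : Type) [Field E] [Algebra Ω E] (M : IntermediateField Ω E) [IsAlgClosed M]
      (P : Fin 3 → M), MvPolynomial.aeval P B ≠ 0 → ∃ c : Fin 3 → Polynomial M,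
        (∀ i, (c i).natDegree ≤ D) ∧ (∀ i, (c i).eval 0 = P i) ∧
        (∃ i, (c i).natDegree ≠ 0) ∧ ∀ t r : E,
        Polynomial.aeval r ψ = MvPolynomial.aeval (fun i => Polynomial.aeval t (c i)) B →
          ∃ θ : E, ∀ F : IntermediateField Ω E, M ≤ F → θ ∈ F → t ∈ F ∧ r ∈ F) :
    Uniruled Ω K 3 := by
  classical
  have hBK : MvPolynomial.aeval x B ∈ adjoin Ω (Set.range x) := by
    have h1 : MvPolynomial.aeval x B ∈ (MvPolynomial.aeval (R := Ω) x).range := ⟨B, rfl⟩
    rw [← Algebra.adjoin_range_eq_range_aeval] at h1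
    exact algebra_adjoin_le_adjoin Ω _ h1
  have hK : ∀ k : K, IsAlgebraic (adjoin Ω (Set.range x)) k := by
    intro k
    have h1 : adjoin Ω (Set.range x ∪ {r}) ≤ AF Ω (Set.range x) := by
      rw [adjoin_le_iff, Set.union_subset_iff, Set.singleton_subset_iff]
      refine ⟨subset_AF _, mem_AF_of_aeval _ ψ hψ r ?_⟩
      rw [hr]
      exact adjoin_le_iff.2 (subset_AF _) hBK
    rw [hgen] at h1
    exact mem_AF.1 (h1 trivial)
  by_cases hx : AlgebraicIndependent Ω x
  swap
  · exact uniruled_of_dep x hx hK
  by_cases hB0 : B = 0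
  · -- `r` is a constant
    subst hB0
    rw [map_zero] at hr
    have hr1 : IsAlgebraic Ω r := ⟨ψ, by rintro rfl; exact hψ Polynomial.natDegree_zero, hr⟩
    refine ⟨K, inferInstance, inferInstance, AlgHom.id Ω K, {x 0, x 1}, x 2, ?_, fun k => ?_⟩
    · exact (Finset.card_le_two).trans_lt (by norm_num)
    · have h1 : adjoin Ω (Set.range x ∪ {r}) ≤
          adjoin Ω (Acl Ω ((({x 0, x 1} : Finset K)) : Set K) ∪ {x 2}) := by
        rw [adjoin_le_iff, Set.union_subset_iff, Set.singleton_subset_iff]
        constructor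
        · rintro _ ⟨i, rfl⟩
          fin_cases i
          · exact subset_adjoin _ _ (Or.inl (mem_AF.1 (subset_AF _ (by simp))))
          · exact subset_adjoin _ _ (Or.inl (mem_AF.1 (subset_AF _ (by simp))))
          · exact subset_adjoin _ _ (Or.inr rfl)
        · exact subset_adjoin _ _ (Or.inl (hr1.extendScalars (algebraMap Ω _).injective))
      rw [hgen] at h1
      exact h1 trivial
  -- the generic case
  let E := AlgebraicClosure K
  set x' : Fin 3 → E := fun i => algebraMap K E (x i) with hx'
  have hx'i : AlgebraicIndependent Ω x' := by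
    have := hx.map' (f := (IsScalarTower.toAlgHom Ω K E)) (algebraMap K E).injective
    exact this
  obtain ⟨k, hk⟩ := exists_const B hB0 x' hx'i (x' 0 ^ (D + 1) + x' 1 ^ (D + 2))
  set S : Finset E := {x' 0, x' 1} with hS
  have hSE : (S : Set E) = {x' 0, x' 1} := by simp [hS]
  set M : IntermediateField Ω E := AF Ω (S : Set E) with hM
  have ht : Transcendental M (x' 2) := by
    have := trans_AF x' hx'i
    rw [hM, hSE]
    exact this
  have m0 : x' 0 ∈ M := subset_AF _ (by simp [hS])
  have m1 : x' 1 ∈ M := subset_AF _ (by simp [hS])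
  let P : Fin 3 → M := ![⟨x' 0, m0⟩, ⟨x' 1, m1⟩,
    (⟨x' 0, m0⟩ : M) ^ (D + 1) + (⟨x' 1, m1⟩ : M) ^ (D + 2) + algebraMap Ω M k]
  have hPB : MvPolynomial.aeval P B ≠ 0 := by
    intro h0
    apply hk
    have h1 := congrArg (algebraMap M E) h0
    rw [map_zero, ← MvPolynomial.aeval_algebraMap_apply] at h1
    rw [← h1]
    congr 2
    funext i
    fin_cases i
    · rfl
    · rfl
    · rfl
  obtain ⟨c, hcD, hc0, ⟨i0, hi0⟩, hcl⟩ := hline E M P hPB
  set φ' : MvPolynomial (Fin 2) Ω := MvPolynomial.X 0 ^ (D + 1) + MvPolynomial.X 1 ^ (D + 2) +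
    MvPolynomial.C k with hφ'
  set L : MvPolynomial (Fin 3) Ω := MvPolynomial.X 2 - MvPolynomial.rename Fin.castSucc φ' with hL
  have hLv : ∀ (A : Type) [CommRing A] [Algebra Ω A] (y : Fin 3 → A), MvPolynomial.aeval y L =
      y 2 - (y 0 ^ (D + 1) + y 1 ^ (D + 2) + algebraMap Ω A k) := by
    intro A _ _ y
    simp only [hL, hφ', map_sub, map_add, map_pow, MvPolynomial.rename_X, MvPolynomial.rename_C,
      MvPolynomial.aeval_X, MvPolynomial.aeval_C]
    rfl
  set x'' : Fin 3 → E := fun i => Polynomial.aeval (x' 2) (c i) with hx''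
  have hLt : MvPolynomial.aeval x'' L ≠ 0 := by
    intro h0
    rw [hx'', ← aeval_curve M c (x' 2) L] at h0
    have h1 := coeff_zero_of ht _ h0
    rw [hLv, sub_eq_zero] at h1
    apply hi0
    exact graph_curve D c hcD (algebraMap Ω M k) h1 i0
  have hind : AlgebraicIndependent Ω x'' := by
    refine indep_curve M P c hc0 (x' 2) ht L ?_ ?_ hLt
    · rw [hLv, sub_eq_zero]
      rfl
    · intro G hG
      have ha : AlgebraicIndependent Ω (![⟨x' 0, m0⟩, ⟨x' 1, m1⟩] : Fin 2 → M) := by
        have h1 : AlgebraicIndependent Ω (fun i : Fin 2 => x' (Fin.castSucc i)) :=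
          hx'i.comp _ (Fin.castSucc_injective 2)
        have h2 : (fun i : Fin 2 => x' (Fin.castSucc i)) =
            M.val ∘ (![⟨x' 0, m0⟩, ⟨x' 1, m1⟩] : Fin 2 → M) := by
          funext i
          fin_cases i
          · rfl
          · rfl
        rw [h2] at h1
        exact AlgebraicIndependent.of_comp M.val h1
      exact dvd_of_graph P _ _ ha φ' rfl rfl rfl (by
        simp only [hφ', map_add, map_pow, MvPolynomial.aeval_X, MvPolynomial.aeval_C]
        rfl) G hG
  obtain ⟨g, hg⟩ := exists_embedding x hx hK x'' hind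
  have hgr : Polynomial.aeval (g r) ψ = MvPolynomial.aeval x'' B := by
    have h1 := congrArg g hr
    rw [← Polynomial.aeval_algHom_apply, MvPolynomial.comp_aeval_apply] at h1
    rw [h1]
    congr 2
    funext i
    exact hg i
  obtain ⟨θ, hθ⟩ := hcl (x' 2) (g r) hgr
  refine ⟨E, inferInstance, inferInstance, g, S, θ, ?_, fun k => ?_⟩
  · rw [hS]
    exact (Finset.card_le_two).trans_lt (by norm_num)
  · set F := adjoin Ω (Acl Ω (S : Set E) ∪ {θ}) with hF
    have hMF : M ≤ F := by
      intro a ha
      exact subset_adjoin _ _ (Or.inl (mem_AF.1 ha))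
    have hθF : θ ∈ F := subset_adjoin _ _ (Or.inr rfl)
    obtain ⟨h1, h2⟩ := hθ F hMF hθF
    have h3 : adjoin Ω (Set.range x ∪ {r}) ≤ F.comap g := by
      rw [adjoin_le_iff, Set.union_subset_iff, Set.singleton_subset_iff]
      constructor
      · rintro _ ⟨i, rfl⟩
        change g (x i) ∈ F
        rw [hg i]
        change Polynomial.aeval (x' 2) (c i) ∈ F
        rw [Polynomial.aeval_eq_sum_range]
        refine sum_mem fun j _ => ?_
        rw [Algebra.smul_def]
        exact F.mul_mem (hMF ((c i).coeff j).2) (pow_mem h1 j)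
      · exact h2
    rw [hgen] at h3
    exact h3 trivial

end Pool.Agent.Helper48.ET
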