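import Pool.Agent.Helper40.SD.Solid

/-!
# Weighted double solids are uniruled

`uni_weighted`: the function field of `r² = B(x, y, z)` is uniruled in characteristic different from
two if `B` has weighted degree at most `2 * (w 0 + w 1 + w 2)` for weights `w i ≥ 1`. Through a
general point there is a curve, given by polynomials of degree at most `2 * w i`, on which `B` is
the product of a square and of a quadratic polynomial: `4 W` equations in `4 W + 1` unknowns,
`W = w 0 + w 1 + w 2`. This generalises the bitangent lines of sextic surfaces (`w = (1, 1, 1)`).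
-/

set_option autoImplicit false

namespace Pool.Agent.Helper48.ET

open Polynomial Pool.Agent.Helper40.SD Pool.Agent.Helper75.QC

section Poly

variable {R : Type} [CommRing R]

/-- the polynomial with the coefficients `a, d 0, d 1, …` -/
noncomputable def pl (k : ℕ) (a : R) (d : Fin k → R) : R[X] :=
  C a + ∑ j : Fin k, C (d j) * X ^ ((j : ℕ) + 1)

theorem natDegree_pl (k : ℕ) (a : R) (d : Fin k → R) : (pl k a d).natDegree ≤ k := by
  unfold pl
  refine (natDegree_add_le _ _).trans (max_le (by simp) ?_)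
  refine natDegree_sum_le_of_forall_le _ _ fun j _ => ?_
  refine (natDegree_C_mul_X_pow_le _ _).trans ?_
  have := j.2
  omega

theorem eval_pl (k : ℕ) (a : R) (d : Fin k → R) : (pl k a d).eval 0 = a := by
  unfold pl
  simp [eval_finsetSum]

theorem pl_zero (k : ℕ) (a : R) : pl k a 0 = C a := by
  unfold pl
  simp

theorem coeff_pl (k : ℕ) (a : R) (d : Fin k → R) (j : Fin k) :
    (pl k a d).coeff ((j : ℕ) + 1) = d j := by
  unfold pl
  rw [coeff_add, coeff_C, if_neg (Nat.succ_ne_zero _), zero_add, finsetSum_coeff,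
    Finset.sum_eq_single j]
  · simp
  · intro i _ hi
    rw [coeff_C_mul, coeff_X_pow, if_neg, mul_zero]
    intro h
    exact hi (Fin.ext (by omega))
  · intro h
    exact absurd (Finset.mem_univ _) h

theorem map_pl {R' : Type} [CommRing R'] (φ : R →+* R') (k : ℕ) (a : R) (d : Fin k → R) :
    (pl k a d).map φ = pl k (φ a) (fun j => φ (d j)) := by
  unfold pl
  simp [Polynomial.map_sum]

theorem eq_zero_of_natDegree_pl (k : ℕ) (a : R) (d : Fin k → R)
    (h : (pl k a d).natDegree = 0) : d = 0 := by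
  funext j
  rw [← coeff_pl k a d j]
  exact coeff_eq_zero_of_natDegree_lt (by omega)

theorem map_aeval {R' : Type} [CommRing R'] (φ : R →+* R') {m : ℕ} (B : MvPolynomial (Fin m) R)
    (c : Fin m → R[X]) : (MvPolynomial.aeval c B).map φ =
      MvPolynomial.aeval (fun i => (c i).map φ) (MvPolynomial.map φ B) := by
  rw [← Polynomial.coe_mapRingHom, MvPolynomial.aeval_def, MvPolynomial.aeval_def,
    MvPolynomial.hom_eval₂, MvPolynomial.eval₂_map]
  congr 1
  ext a
  simp

theorem eval_aeval {m : ℕ} (B : MvPolynomial (Fin m) R) (c : Fin m → R[X]) (u : R) :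
    (MvPolynomial.aeval c B).eval u = MvPolynomial.eval (fun i => (c i).eval u) B := by
  rw [← Polynomial.coe_evalRingHom, MvPolynomial.aeval_def, MvPolynomial.hom_eval₂,
    ← MvPolynomial.eval₂_id]
  congr 1
  ext a
  simp

theorem natDegree_aeval_le {m : ℕ} (B : MvPolynomial (Fin m) R) (w : Fin m → ℕ) (D : ℕ)
    (hB : ∀ s ∈ B.support, ∑ i, w i * s i ≤ D) (c : Fin m → R[X]) (k : ℕ)
    (hc : ∀ i, (c i).natDegree ≤ k * w i) : (MvPolynomial.aeval c B).natDegree ≤ k * D := by
  rw [MvPolynomial.aeval_def, MvPolynomial.eval₂_eq']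
  refine natDegree_sum_le_of_forall_le _ _ fun s hs => ?_
  refine natDegree_mul_le.trans ?_
  have h1 : (algebraMap R R[X] (B.coeff s)).natDegree = 0 := by
    rw [Polynomial.algebraMap_eq]
    exact natDegree_C _
  rw [h1, zero_add]
  refine (natDegree_prod_le _ _).trans ?_
  calc ∑ i, (c i ^ s i).natDegree ≤ ∑ i, k * (w i * s i) := by
        refine Finset.sum_le_sum fun i _ => natDegree_pow_le.trans ?_
        calc s i * (c i).natDegree ≤ s i * (k * w i) := Nat.mul_le_mul_left _ (hc i)
          _ = k * (w i * s i) := by ring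
    _ = k * ∑ i, w i * s i := by rw [Finset.mul_sum]
    _ ≤ k * D := Nat.mul_le_mul_left _ (hB s hs)

end Poly

/-- **The curves.** -/
theorem exists_curve {M : Type} [Field M] [IsAlgClosed M] {m : ℕ} (w : Fin m → ℕ)
    (hw : 0 < ∑ i, w i) (B : MvPolynomial (Fin m) M)
    (hB : ∀ s ∈ B.support, ∑ i, w i * s i ≤ 2 * ∑ i, w i) (P : Fin m → M)
    (hP : MvPolynomial.eval P B ≠ 0) :
    ∃ (c : Fin m → M[X]) (q h : M[X]), (∀ i, (c i).natDegree ≤ 2 * w i) ∧
      (∀ i, (c i).eval 0 = P i) ∧ (∃ i, (c i).natDegree ≠ 0) ∧ h.natDegree ≤ 2 ∧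
      MvPolynomial.aeval c B = q ^ 2 * h := by
  classical
  set W := ∑ i, w i with hW
  set b := MvPolynomial.eval P B with hb
  let σ := (Σ i : Fin m, Fin (2 * w i)) ⊕ (Fin (2 * W - 1) ⊕ Fin 2)
  let R := MvPolynomial σ M
  let v : σ → R := MvPolynomial.X
  let cc : (σ → M) → Fin m → M[X] := fun x i => pl (2 * w i) (P i) (fun j => x (Sum.inl ⟨i, j⟩))
  let qq : (σ → M) → M[X] := fun x => pl (2 * W - 1) 1 (fun j => x (Sum.inr (Sum.inl j)))
  let hh : (σ → M) → M[X] := fun x => pl 2 b (fun j => x (Sum.inr (Sum.inr j)))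
  let Φ : R[X] := MvPolynomial.aeval (fun i => pl (2 * w i) (MvPolynomial.C (P i))
    (fun j => v (Sum.inl ⟨i, j⟩))) (MvPolynomial.map (MvPolynomial.C : M →+* R) B)
  let Ψ : R[X] := (pl (2 * W - 1) 1 (fun j => v (Sum.inr (Sum.inl j)))) ^ 2 *
    pl 2 (MvPolynomial.C b) (fun j => v (Sum.inr (Sum.inr j)))
  have hΦ : ∀ x : σ → M, Φ.map (MvPolynomial.eval x) = MvPolynomial.aeval (cc x) B := by
    intro x
    change Polynomial.map (MvPolynomial.eval x) (MvPolynomial.aeval (R := R)
      (fun i => pl (2 * w i) (MvPolynomial.C (P i)) (fun j => v (Sum.inl ⟨i, j⟩)))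
      (MvPolynomial.map (MvPolynomial.C : M →+* R) B)) = _
    rw [map_aeval, MvPolynomial.map_map]
    have h1 : (MvPolynomial.eval x).comp MvPolynomial.C = RingHom.id M := by
      ext a
      simp
    rw [h1, MvPolynomial.map_id]
    congr 1
    congr 1
    funext i
    rw [map_pl]
    simp [v, cc]
  have hΨ : ∀ x : σ → M, Ψ.map (MvPolynomial.eval x) = qq x ^ 2 * hh x := by
    intro x
    change Polynomial.map _ (_ * _) = _
    rw [Polynomial.map_mul, Polynomial.map_pow, map_pl, map_pl]
    simp [v, qq, hh]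
  have hc0 : cc 0 = fun i => C (P i) := by
    funext i
    exact pl_zero _ _
  have hcB : MvPolynomial.aeval (fun i => (C (P i) : M[X])) B = C b := by
    rw [hb, MvPolynomial.aeval_def, ← MvPolynomial.eval₂_id, MvPolynomial.hom_eval₂]
    rfl
  have hcard : Fintype.card (Fin (4 * W)) < Nat.card σ := by
    simp only [σ, Nat.card_eq_fintype_card, Fintype.card_sum, Fintype.card_sigma, Fintype.card_fin]
    rw [← Finset.mul_sum, ← hW]
    omega
  obtain ⟨x, hx0, hx⟩ := exists_zero (k := M) (σ := σ) (ι := Fin (4 * W))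
    (fun j => (Φ - Ψ).coeff (j + 1)) (fun j => by
      have h1 : ((Φ - Ψ).map (MvPolynomial.eval (0 : σ → M))).coeff (j + 1) = 0 := by
        rw [Polynomial.map_sub, hΦ, hΨ, hc0, hcB]
        have h3 : qq 0 ^ 2 * hh 0 = C b := by
          have h4 : qq 0 = 1 := by
            change pl _ _ 0 = _
            rw [pl_zero, map_one]
          have h5 : hh 0 = C b := pl_zero _ _
          rw [h4, h5, one_pow, one_mul]
        rw [h3, sub_self, coeff_zero]
      rw [coeff_map] at h1
      exact h1) hcard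
  have hdc : ∀ i, (cc x i).natDegree ≤ 2 * w i := fun i => natDegree_pl _ _ _
  have hd1 : (MvPolynomial.aeval (cc x) B).natDegree ≤ 4 * W := by
    have := natDegree_aeval_le B w (2 * W) hB (cc x) 2 hdc
    omega
  have hdq : (qq x).natDegree ≤ 2 * W - 1 := natDegree_pl _ _ _
  have hdh : (hh x).natDegree ≤ 2 := natDegree_pl _ _ _
  have hd2 : (qq x ^ 2 * hh x).natDegree ≤ 4 * W := by
    refine natDegree_mul_le.trans ?_
    have := natDegree_pow_le (p := qq x) (n := 2)
    omega
  have heq : MvPolynomial.aeval (cc x) B = qq x ^ 2 * hh x := by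
    rw [← hΦ, ← hΨ, ← sub_eq_zero, ← Polynomial.map_sub]
    ext j
    rw [coeff_zero]
    rcases Nat.eq_zero_or_pos j with rfl | hj
    · rw [Polynomial.map_sub, hΦ, hΨ, coeff_sub, coeff_zero_eq_eval_zero,
        coeff_zero_eq_eval_zero, eval_aeval, eval_mul, eval_pow]
      have h1 : (fun i => (cc x i).eval 0) = P := by
        funext i
        exact eval_pl _ _ _
      rw [h1, ← hb]
      have h2 : (qq x).eval 0 = 1 := eval_pl _ _ _
      have h3 : (hh x).eval 0 = b := eval_pl _ _ _
      rw [h2, h3]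
      ring
    · by_cases hj6 : j ≤ 4 * W
      · have h1 := hx ⟨j - 1, by omega⟩
        have h2 : (((⟨j - 1, by omega⟩ : Fin (4 * W)) : ℕ) + 1) = j := by
          simp only
          omega
        rw [h2] at h1
        rw [coeff_map]
        exact h1
      · rw [Polynomial.map_sub, hΦ, hΨ, coeff_sub,
          coeff_eq_zero_of_natDegree_lt (hd1.trans_lt (by omega)),
          coeff_eq_zero_of_natDegree_lt (hd2.trans_lt (by omega)), sub_zero]
  refine ⟨cc x, qq x, hh x, hdc, fun i => eval_pl _ _ _, ?_, hdh, heq⟩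
  by_contra hcon
  push Not at hcon
  apply hx0
  have hxl : ∀ i j, x (Sum.inl ⟨i, j⟩) = 0 := fun i j =>
    congrFun (eq_zero_of_natDegree_pl _ _ _ (hcon i)) j
  have h1 : cc x = fun i => C (P i) := by
    funext i
    have : cc x i = pl (2 * w i) (P i) 0 := by
      change pl _ _ _ = _
      congr 1
      funext j
      exact hxl i j
    rw [this, pl_zero]
  rw [h1, hcB] at heq
  have hne : qq x ^ 2 * hh x ≠ 0 := by
    rw [← heq]
    exact C_ne_zero.2 hP
  have hq : qq x ≠ 0 := by
    intro h
    rw [h] at hne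
    simp at hne
  have hh0 : hh x ≠ 0 := by
    intro h
    rw [h] at hne
    simp at hne
  have hdeg := congrArg natDegree heq
  rw [natDegree_C, natDegree_mul (pow_ne_zero _ hq) hh0, natDegree_pow] at hdeg
  have e1 := eq_zero_of_natDegree_pl _ _ _ (show (qq x).natDegree = 0 by omega)
  have e2 := eq_zero_of_natDegree_pl _ _ _ (show (hh x).natDegree = 0 by omega)
  funext s
  rcases s with ⟨i, j⟩ | j | j
  · exact hxl i j
  · exact congrFun e1 j
  · exact congrFun e2 j

end Pool.Agent.Helper48.ET
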